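import Pool.Agent.Helper762_QL.Minor

set_option autoImplicit false

/-!
# The two upper bounds
-/

namespace Pool.Agent.Helper762_QL

open Finset

variable {V : Type}

/-- closed under adjacency -/
def Cl (G : SimpleGraph V) (U : Finset V) : Prop := ∀ u ∈ U, ∀ w, G.Adj u w → w ∈ U

open Classical in
theorem glue (G : SimpleGraph V) (β : ℝ) (P : Finset V → Prop) (h0 : P ∅)
    (hg : ∀ Y Z : Finset V, Disjoint Y Z → (∀ y ∈ Y, ∀ z ∈ Z, ¬ G.Adj y z) → P Y → P Z →
      P (Y ∪ Z))
    (hc : ∀ U : Finset V, U.Nonempty → Cl G U → (∀ x ∈ U, ∀ y ∈ U, Rch G (U : Set V) x y) →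
      ∃ Y ⊆ U, P Y ∧ β * U.card ≤ Y.card) :
    ∀ (m : ℕ) (W : Finset V), W.card = m → Cl G W → ∃ Y ⊆ W, P Y ∧ β * W.card ≤ Y.card := by
  intro m
  induction m using Nat.strong_induction_on with
  | _ m ih =>
  intro W hW hcl
  rcases W.eq_empty_or_nonempty with rfl | ⟨x, hx⟩
  · exact ⟨∅, by simp, h0, by simp⟩
  set U := W.filter (fun z => Rch G (W : Set V) x z) with hU
  have hUW : U ⊆ W := Finset.filter_subset _ _
  have hxU : x ∈ U := by rw [hU, Finset.mem_filter]; exact ⟨hx, Rch.rfl'⟩
  have hUcl : Cl G U := by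
    intro u hu w huw
    rw [hU, Finset.mem_filter] at hu ⊢
    have hw : w ∈ W := hcl u hu.1 w huw
    exact ⟨hw, hu.2.trans (Rch.adj (by exact_mod_cast hu.1) (by exact_mod_cast hw) huw)⟩
  have hxr : ∀ y ∈ U, Rch G (U : Set V) x y := by
    intro y hy
    rw [hU, Finset.mem_filter] at hy
    have := Rch.closed hy.2 (p := fun y => Rch G (U : Set V) x y) Rch.rfl' (by
      intro p _ q _ hpq hrp
      have hpU : p ∈ (U : Set V) := hrp.mem_right (by exact_mod_cast hxU)
      have hqU : q ∈ (U : Set V) := by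
        exact_mod_cast hUcl p (by exact_mod_cast hpU) q hpq
      exact hrp.trans (Rch.adj hpU hqU hpq))
    exact this
  have hUconn : ∀ y ∈ U, ∀ z ∈ U, Rch G (U : Set V) y z := fun y hy z hz =>
    (hxr y hy).symm.trans (hxr z hz)
  obtain ⟨Y, hYU, hPY, hYc⟩ := hc U ⟨x, hxU⟩ hUcl hUconn
  have hWU : Cl G (W \ U) := by
    intro u hu w huw
    rw [Finset.mem_sdiff] at hu ⊢
    refine ⟨hcl u hu.1 w huw, fun hwU => hu.2 (hUcl w hwU u huw.symm)⟩
  have hlt : (W \ U).card < m := by
    rw [← hW]
    exact Finset.card_lt_card (Finset.sdiff_ssubset hUW ⟨x, hxU⟩)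
  obtain ⟨Z, hZ, hPZ, hZc⟩ := ih _ hlt (W \ U) rfl hWU
  have hdisj : Disjoint Y Z := by
    rw [Finset.disjoint_left]
    intro a ha hb
    exact (Finset.mem_sdiff.1 (hZ hb)).2 (hYU ha)
  refine ⟨Y ∪ Z, Finset.union_subset (hYU.trans hUW) (hZ.trans Finset.sdiff_subset), ?_, ?_⟩
  · refine hg Y Z hdisj ?_ hPY hPZ
    intro y hy z hz hyz
    exact (Finset.mem_sdiff.1 (hZ hz)).2 (hUcl y (hYU hy) z hyz)
  · rw [Finset.card_union_of_disjoint hdisj]
    have h1 : (W.card : ℝ) = U.card + (W \ U).card := by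
      rw [Finset.card_sdiff_of_subset hUW, Nat.cast_sub (Finset.card_le_card hUW)]
      ring
    rw [h1]
    push_cast
    nlinarith

open Classical in
/-- data of a graph in the class -/
structure Good (G : SimpleGraph V) [Fintype V] (d : ℕ) (φ : V → Finset V → ℝ) : Prop where
  deg : ∀ v, ∀ N : Finset V, (∀ w ∈ N, G.Adj v w) → N.card ≤ d
  claw : ClawFree G
  loc : ∀ v, LocalIneq G v (φ v)
  bound : ∀ v, alpha d ≤ φ v (Finset.univ.filter (fun w => G.Adj v w))

open Classical in
theorem Good.comp [Fintype V] {G : SimpleGraph V} {d : ℕ} {φ : V → Finset V → ℝ}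
    (h : Good G d φ) {U : Finset V} (hcl : Cl G U)
    (hU : ∀ x ∈ U, ∀ y ∈ U, Rch G (U : Set V) x y) :
    ∃ Y ⊆ U, Elim G Y ∧ alpha d * U.card ≤ Y.card + 1 := by
  obtain ⟨X, R, hXU, hE, hS, hsum⟩ := avg G φ U (fun v _ => h.loc v) _ U rfl (Finset.Subset.refl _)
  obtain ⟨Y, hYU, hEY, hc⟩ := extend h.claw hXU hE hS hU
  refine ⟨Y, hYU, hEY, ?_⟩
  have h1 : alpha d * U.card ≤ ∑ v ∈ U, φ v (U.filter (fun w => G.Adj v w)) := by
    have h2 : ∀ v ∈ U, alpha d ≤ φ v (U.filter (fun w => G.Adj v w)) := by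
      intro v hv
      have h3 : U.filter (fun w => G.Adj v w) = Finset.univ.filter (fun w => G.Adj v w) := by
        ext w
        simp only [Finset.mem_filter, Finset.mem_univ, true_and]
        exact ⟨fun h => h.2, fun h => ⟨hcl v hv w h, h⟩⟩
      rw [h3]
      exact h.bound v
    have := Finset.card_nsmul_le_sum U _ _ h2
    rw [nsmul_eq_mul] at this
    linarith
  have h2 : (R.card : ℝ) + X.card ≤ Y.card + 1 := by exact_mod_cast hc
  linarith

open Classical in
/-- first upper bound: clique minors -/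
theorem Good.upper_model [Fintype V] {G : SimpleGraph V} {d : ℕ} (hd : 2 ≤ d)
    {φ : V → Finset V → ℝ} (h : Good G d φ) {r : ℕ} (hr : d + 3 ≤ r) :
    ∃ Y : Finset V, alpha d * Fintype.card V ≤ Y.card ∧ ¬ Model G r (Y : Set V) := by
  obtain ⟨Y, _, hY, hc⟩ := glue G (alpha d) (fun Y => ¬ Model G r (Y : Set V)) (by
      rintro ⟨f, h1, h2, _⟩
      obtain ⟨⟨z, hz⟩⟩ := (h2 ⟨0, by omega⟩).nonempty
      have := h1 _ hz
      simp at this) (by
      intro Y Z hd hYZ hY hZ hM
      rw [Finset.coe_union] at hM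
      rcases hM.split (by omega) (fun y hy z hz => hYZ y (by exact_mod_cast hy) z
        (by exact_mod_cast hz)) (by exact_mod_cast hd) with h | h
      · exact hY h
      · exact hZ h) (by
      intro U hne hcl hU
      obtain ⟨Y, hYU, hE, hcard⟩ := h.comp hcl hU
      have hno := hE.no_model h.deg
      by_cases hYeq : Y = U
      · refine ⟨Y, hYU, fun hM => hno (hM.mono (by omega) (Set.Subset.refl _)), ?_⟩
        rw [hYeq]
        have := alpha_le_one hd
        nlinarith [Nat.cast_nonneg (α := ℝ) U.card]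
      · obtain ⟨v, hvU, hvY⟩ : ∃ v ∈ U, v ∉ Y := by
          by_contra hcon
          push Not at hcon
          exact hYeq (Finset.Subset.antisymm hYU hcon)
        refine ⟨insert v Y, Finset.insert_subset hvU hYU, ?_, ?_⟩
        · intro hM
          rw [Finset.coe_insert] at hM
          have h1 : Model G (d + 2 + 1) (insert v (Y : Set V)) :=
            hM.mono (by omega) (Set.Subset.refl _)
          exact hno h1.remove
        · rw [Finset.card_insert_of_notMem hvY]
          push_cast
          exact hcard) _ Finset.univ rfl (fun _ _ _ _ => Finset.mem_univ _)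
  refine ⟨Y, ?_, hY⟩
  rwa [Finset.card_univ] at hc

open Classical in
/-- second upper bound: bounded components -/
theorem upper_frag (d : ℕ) (hd : 2 ≤ d) (ε : ℝ) (hε : 0 < ε) :
    ∃ C : ℕ, ∀ (V : Type) (_ : Fintype V) (G : SimpleGraph V) (φ : V → Finset V → ℝ),
      Good G d φ → ∃ Y : Finset V, (alpha d - ε) * Fintype.card V ≤ Y.card ∧
        ∀ T : Set V, T ⊆ (Y : Set V) → (G.induce T).Connected → T.ncard ≤ C := by
  obtain ⟨L, hL⟩ := exists_nat_ge (2 / ε)
  obtain ⟨a0, ha0⟩ := exists_nat_ge (6 * ((d : ℝ) + 1) / ε)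
  set a := a0 + 1 with ha
  have hLe : 1 ≤ ε / 2 * L := by
    rw [div_le_iff₀ hε] at hL
    linarith
  have hae : 3 * ((d : ℝ) + 1) ≤ ε / 2 * a := by
    rw [div_le_iff₀ hε] at ha0
    rw [ha]; push_cast
    nlinarith
  refine ⟨max L a, ?_⟩
  intro V _ G φ h
  obtain ⟨Y, _, hY, hc⟩ := glue G (alpha d - ε)
    (fun Y => ∀ T : Set V, T ⊆ (Y : Set V) → (G.induce T).Connected → T.ncard ≤ max L a) (by
      intro T hT hconn
      obtain ⟨⟨z, hz⟩⟩ := hconn.nonempty
      have := hT hz
      simp at this) (by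
      intro Y Z hd hYZ hY hZ T hT hconn
      rw [Finset.coe_union] at hT
      rcases conn_split (fun y hy z hz => hYZ y (by exact_mod_cast hy) z
        (by exact_mod_cast hz)) (by exact_mod_cast hd) hT hconn with h | h
      · exact hY T h hconn
      · exact hZ T h hconn) (by
      intro U hne hcl hU
      have hUpos : (0 : ℝ) ≤ U.card := Nat.cast_nonneg _
      by_cases hUL : U.card ≤ L
      · refine ⟨U, Finset.Subset.refl _, ?_, ?_⟩
        · intro T hT _
          calc T.ncard ≤ (U : Set V).ncard := Set.ncard_le_ncard hT (Finset.finite_toSet _)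
            _ = U.card := Set.ncard_coe_finset _
            _ ≤ L := hUL
            _ ≤ max L a := le_max_left _ _
        · have := alpha_le_one hd
          nlinarith
      · push Not at hUL
        obtain ⟨Y, hYU, hE, hcard⟩ := h.comp hcl hU
        obtain ⟨S, hS, hfrag⟩ := hE.fragment h.deg a (by omega)
        refine ⟨Y \ S, Finset.sdiff_subset.trans hYU, ?_, ?_⟩
        · intro T hT hconn
          refine (hfrag T ?_ ?_ hconn).trans (le_max_right _ _)
          · intro x hx
            have := hT hx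
            rw [Finset.coe_sdiff] at this
            exact this.1
          · rw [Set.disjoint_left]
            intro x hx
            have := hT hx
            rw [Finset.coe_sdiff] at this
            exact this.2
        · have h1 : (Y.card : ℝ) ≤ (Y \ S).card + S.card := by
            have := Finset.card_le_card_sdiff_add_card (s := Y) (t := S)
            exact_mod_cast this
          have h2 : (a : ℝ) * S.card ≤ ((d : ℝ) + 1) * (3 * Y.card) := by exact_mod_cast hS
          have h3 : (Y.card : ℝ) ≤ U.card := by exact_mod_cast Finset.card_le_card hYU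
          have ha1 : (0 : ℝ) < a := by rw [ha]; positivity
          have h4 : (S.card : ℝ) ≤ ε / 2 * U.card := by
            have h5 : (a : ℝ) * S.card ≤ a * (ε / 2 * U.card) := by
              calc (a : ℝ) * S.card ≤ ((d : ℝ) + 1) * (3 * Y.card) := h2
                _ ≤ (3 * ((d : ℝ) + 1)) * U.card := by nlinarith [Nat.cast_nonneg (α := ℝ) d]
                _ ≤ (ε / 2 * a) * U.card := by nlinarith
                _ = a * (ε / 2 * U.card) := by ring
            exact le_of_mul_le_mul_left h5 ha1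
          have h6 : (1 : ℝ) ≤ ε / 2 * U.card := by
            have : (L : ℝ) ≤ U.card := by exact_mod_cast hUL.le
            nlinarith
          nlinarith) _ Finset.univ rfl (fun _ _ _ _ => Finset.mem_univ _)
  refine ⟨Y, ?_, hY⟩
  rwa [Finset.card_univ] at hc

end Pool.Agent.Helper762_QL
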