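import Pool.Agent.Helper762_QL.Extend

set_option autoImplicit false

/-!
# The averaging argument (a random elimination order, derandomised)
-/

namespace Pool.Agent.Helper762_QL

open Finset

/-- clique -/
def Clq {V : Type} (G : SimpleGraph V) (s : Finset V) : Prop :=
  ∀ x ∈ s, ∀ y ∈ s, x ≠ y → G.Adj x y

open Classical in
/-- the local inequality for a weight function at the vertex `v` -/
def LocalIneq {V : Type} (G : SimpleGraph V) (v : V) (φ : Finset V → ℝ) : Prop :=
  ∀ s : Finset V, (∀ w ∈ s, G.Adj v w) →
    ((s.card : ℝ) + 1) * φ s ≤
      (if Clq G s then 1 else 0) + (if s = ∅ then 1 else 0) + ∑ w ∈ s, φ (s.erase w)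

open Classical in
theorem avg {V : Type} (G : SimpleGraph V) (φ : V → Finset V → ℝ) (W : Finset V)
    (hφ : ∀ v ∈ W, LocalIneq G v (φ v)) :
    ∀ (m : ℕ) (U : Finset V), U.card = m → U ⊆ W →
      ∃ X R : Finset V, X ⊆ U ∧ Elim G X ∧ Sep G X R ∧
        ∑ v ∈ U, φ v (U.filter (fun w => G.Adj v w)) ≤ (X.card : ℝ) + R.card := by
  intro m
  induction m with
  | zero =>
    intro U hU _
    rw [Finset.card_eq_zero] at hU
    subst hU
    exact ⟨∅, ∅, by simp, Elim.empty, ⟨by simp, by simp⟩, by simp⟩
  | succ m ih =>
    intro U hU hUW
    have hne : U.Nonempty := by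
      rw [← Finset.card_pos, hU]; omega
    let N : Finset V → V → Finset V := fun U v => U.filter (fun w => G.Adj v w)
    let T : Finset V → ℝ := fun U => ∑ v ∈ U, φ v (N U v)
    let g : V → ℝ := fun u => (if Clq G (N U u) then 1 else 0) + (if N U u = ∅ then 1 else 0)
    have hNe : ∀ u v, N (U.erase u) v = (N U v).erase u := by
      intro u v
      ext w
      simp only [N, Finset.mem_filter, Finset.mem_erase]
      tauto
    -- the average
    have havg : ∑ u ∈ U, T U ≤ ∑ u ∈ U, (T (U.erase u) + g u) := by
      rw [Finset.sum_add_distrib]
      have h1 : ∑ u ∈ U, T (U.erase u) =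
          ∑ v ∈ U, ∑ u ∈ U.erase v, φ v ((N U v).erase u) := by
        have : ∀ u ∈ U, T (U.erase u) = ∑ v ∈ U.erase u, φ v ((N U v).erase u) := by
          intro u _
          refine Finset.sum_congr rfl fun v _ => ?_
          rw [hNe]
        rw [Finset.sum_congr rfl this]
        refine Finset.sum_comm' ?_
        intro x y
        simp only [Finset.mem_erase]
        tauto
      rw [h1, ← Finset.sum_add_distrib, Finset.sum_const, nsmul_eq_mul]
      have h2 : ∀ v ∈ U, (U.card : ℝ) * φ v (N U v) ≤
          ∑ u ∈ U.erase v, φ v ((N U v).erase u) + g v := by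
        intro v hv
        have hsub : N U v ⊆ U.erase v := by
          intro w hw
          simp only [N, Finset.mem_filter] at hw
          rw [Finset.mem_erase]
          exact ⟨hw.2.ne', hw.1⟩
        have h3 : ∑ u ∈ U.erase v, φ v ((N U v).erase u) =
            ∑ u ∈ (U.erase v) \ N U v, φ v ((N U v).erase u) +
              ∑ u ∈ N U v, φ v ((N U v).erase u) := (Finset.sum_sdiff hsub).symm
        have h4 : ∑ u ∈ (U.erase v) \ N U v, φ v ((N U v).erase u) =
            (((U.card : ℝ) - 1) - (N U v).card) * φ v (N U v) := by
          have : ∀ u ∈ (U.erase v) \ N U v, φ v ((N U v).erase u) = φ v (N U v) := by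
            intro u hu
            rw [Finset.mem_sdiff] at hu
            rw [Finset.erase_eq_of_notMem hu.2]
          rw [Finset.sum_congr rfl this, Finset.sum_const, nsmul_eq_mul,
            Finset.card_sdiff_of_subset hsub, Nat.cast_sub (Finset.card_le_card hsub),
            Finset.card_erase_of_mem hv, Nat.cast_sub (Finset.card_pos.2 hne)]
          norm_num
        have h5 := hφ v (hUW hv) (N U v) (by
          intro w hw
          simp only [N, Finset.mem_filter] at hw
          exact hw.2)
        have h6 : g v = (if Clq G (N U v) then 1 else 0) + (if N U v = ∅ then 1 else 0) := rfl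
        rw [h3, h4]
        nlinarith [h5, h6]
      calc (U.card : ℝ) * T U = ∑ v ∈ U, (U.card : ℝ) * φ v (N U v) := by
            rw [Finset.mul_sum]
        _ ≤ ∑ v ∈ U, (∑ u ∈ U.erase v, φ v ((N U v).erase u) + g v) := Finset.sum_le_sum h2
    obtain ⟨u, hu, hle⟩ := Finset.exists_le_of_sum_le hne havg
    obtain ⟨X, R, hXU, hE, hS, hsum⟩ := ih (U.erase u)
      (by rw [Finset.card_erase_of_mem hu, hU]; rfl)
      ((Finset.erase_subset _ _).trans hUW)
    have huX : u ∉ X := fun h => by
      have := hXU h
      rw [Finset.mem_erase] at this
      exact this.1 rfl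
    have hXU' : X ⊆ U := hXU.trans (Finset.erase_subset _ _)
    have hT : T U ≤ (X.card : ℝ) + R.card + g u := by
      have : T (U.erase u) ≤ (X.card : ℝ) + R.card := hsum
      linarith
    by_cases hcl : Clq G (N U u)
    · have hE' : Elim G (insert u X) := by
        refine Elim.insert _ _ huX hE ?_
        intro a ha b hb h1 h2 hab
        exact hcl a (by simp only [N, Finset.mem_filter]; exact ⟨hXU' ha, h1⟩) b
          (by simp only [N, Finset.mem_filter]; exact ⟨hXU' hb, h2⟩) hab
      have hnr : ∀ a ∈ X, ∀ b ∈ X, Rch G ((insert u X : Finset V) : Set V) a b →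
          Rch G (X : Set V) a b := by
        intro a ha b hb hr
        rcases rch_insert huX ha hb hr with h | ⟨⟨c, hc, huc, hrc⟩, ⟨e, he, hue, hre⟩⟩
        · exact h
        · by_cases hce : c = e
          · subst hce; exact hrc.trans hre.symm
          · have : G.Adj c e := hcl c
              (by simp only [N, Finset.mem_filter]; exact ⟨hXU' hc, huc⟩) e
              (by simp only [N, Finset.mem_filter]; exact ⟨hXU' he, hue⟩) hce
            exact (hrc.trans (Rch.adj (by exact_mod_cast hc) (by exact_mod_cast he) this)).trans
              hre.symm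
      by_cases hem : N U u = ∅
      · refine ⟨insert u X, insert u R, Finset.insert_subset hu hXU', hE', ⟨?_, ?_⟩, ?_⟩
        · exact Finset.insert_subset_insert _ hS.1
        · have hiso : ∀ b ∈ X, ¬ Rch G ((insert u X : Finset V) : Set V) u b := by
            intro b hb hr
            have : b = u := by
              refine Rch.closed hr (p := fun z => z = u) rfl ?_
              intro x hx y hy hxy hxu
              subst hxu
              exfalso
              have hy' : y ∈ insert x X := by exact_mod_cast hy
              have hyU : y ∈ U := (Finset.insert_subset hu hXU') hy'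
              have : y ∈ N U x := by simp only [N, Finset.mem_filter]; exact ⟨hyU, hxy⟩
              rw [hem] at this
              simp at this
            exact huX (this ▸ hb)
          intro a ha b hb hab hr
          rw [Finset.mem_insert] at ha hb
          rcases ha with rfl | ha
          · rcases hb with rfl | hb
            · exact hab rfl
            · exact hiso b (hS.1 hb) hr
          · rcases hb with rfl | hb
            · exact hiso a (hS.1 ha) hr.symm
            · exact hS.2 a ha b hb hab (hnr a (hS.1 ha) b (hS.1 hb) hr)
        · have huR : u ∉ R := fun h => huX (hS.1 h)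
          have hg : g u = 2 := by
            simp only [g]
            rw [if_pos hcl, if_pos hem]; norm_num
          rw [Finset.card_insert_of_notMem huX, Finset.card_insert_of_notMem huR]
          push_cast
          have : T U ≤ (X.card : ℝ) + R.card + 2 := hg ▸ hT
          change T U ≤ _
          linarith
      · refine ⟨insert u X, R, Finset.insert_subset hu hXU', hE', ⟨?_, ?_⟩, ?_⟩
        · exact hS.1.trans (Finset.subset_insert _ _)
        · intro a ha b hb hab hr
          exact hS.2 a ha b hb hab (hnr a (hS.1 ha) b (hS.1 hb) hr)
        · have hg : g u = 1 := by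
            simp only [g]
            rw [if_pos hcl, if_neg hem]; norm_num
          rw [Finset.card_insert_of_notMem huX]
          push_cast
          have : T U ≤ (X.card : ℝ) + R.card + 1 := hg ▸ hT
          change T U ≤ _
          linarith
    · refine ⟨X, R, hXU', hE, hS, ?_⟩
      have hem : N U u ≠ ∅ := by
        intro h
        apply hcl
        rw [h]
        intro x hx
        simp at hx
      have hg : g u = 0 := by
        simp only [g]
        rw [if_neg hcl, if_neg hem]; norm_num
      have : T U ≤ (X.card : ℝ) + R.card + 0 := hg ▸ hT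
      change T U ≤ _
      linarith

end Pool.Agent.Helper762_QL
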