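import Mathlib

set_option autoImplicit false

/-!
# Simplicial elimination inside claw-free graphs

`Rch G T` is reachability inside `T`; `Elim G X` says that `G[X]` is built by adding simplicial
vertices (so it is chordal).
-/

namespace Pool.Agent.Helper762_QL

open Finset

variable {V : Type}

/-- reachability inside `T` -/
def Rch (G : SimpleGraph V) (T : Set V) : V → V → Prop :=
  Relation.ReflTransGen (fun a b => a ∈ T ∧ b ∈ T ∧ G.Adj a b)

theorem Rch.symm {G : SimpleGraph V} {T : Set V} {a b : V} (h : Rch G T a b) : Rch G T b a := by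
  induction h with
  | refl => exact Relation.ReflTransGen.refl
  | tail _ hbc ih => exact Relation.ReflTransGen.head ⟨hbc.2.1, hbc.1, hbc.2.2.symm⟩ ih

theorem Rch.trans {G : SimpleGraph V} {T : Set V} {a b c : V} (h : Rch G T a b)
    (h' : Rch G T b c) : Rch G T a c := Relation.ReflTransGen.trans h h'

theorem Rch.mono {G : SimpleGraph V} {T T' : Set V} (hT : T ⊆ T') {a b : V} (h : Rch G T a b) :
    Rch G T' a b := by
  induction h with
  | refl => exact Relation.ReflTransGen.refl
  | tail _ hbc ih => exact Relation.ReflTransGen.tail ih ⟨hT hbc.1, hT hbc.2.1, hbc.2.2⟩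

theorem Rch.adj {G : SimpleGraph V} {T : Set V} {a b : V} (ha : a ∈ T) (hb : b ∈ T)
    (h : G.Adj a b) : Rch G T a b := Relation.ReflTransGen.single ⟨ha, hb, h⟩

theorem Rch.rfl' {G : SimpleGraph V} {T : Set V} {a : V} : Rch G T a a :=
  Relation.ReflTransGen.refl

theorem Rch.mem_right {G : SimpleGraph V} {T : Set V} {a b : V} (ha : a ∈ T) (h : Rch G T a b) :
    b ∈ T := by
  induction h with
  | refl => exact ha
  | tail _ hbc _ => exact hbc.2.1

/-- a predicate closed under adjacency inside `T` is constant along `Rch` -/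
theorem Rch.closed {G : SimpleGraph V} {T : Set V} {p : V → Prop} {a b : V} (h : Rch G T a b)
    (ha : p a) (hp : ∀ x ∈ T, ∀ y ∈ T, G.Adj x y → p x → p y) : p b := by
  induction h with
  | refl => exact ha
  | tail _ hbc ih => exact hp _ hbc.1 _ hbc.2.1 hbc.2.2 ih

theorem conn_iff {G : SimpleGraph V} {T : Set V} :
    (G.induce T).Connected ↔ T.Nonempty ∧ ∀ x ∈ T, ∀ y ∈ T, Rch G T x y := by
  constructor
  · intro h
    obtain ⟨⟨z, hz⟩⟩ := h.nonempty
    refine ⟨⟨z, hz⟩, ?_⟩
    intro x hx y hy
    have hr := h.preconnected ⟨x, hx⟩ ⟨y, hy⟩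
    rw [SimpleGraph.reachable_iff_reflTransGen] at hr
    have key : ∀ w : T, Relation.ReflTransGen (G.induce T).Adj ⟨x, hx⟩ w → Rch G T x w.1 := by
      intro w hw
      induction hw with
      | refl => exact Rch.rfl'
      | @tail b c _ hbc ih => exact Rch.trans ih (Rch.adj b.2 c.2 hbc)
    exact key _ hr
  · rintro ⟨⟨z, hz⟩, h⟩
    have : Nonempty T := ⟨⟨z, hz⟩⟩
    refine SimpleGraph.Connected.mk ?_
    rintro ⟨x, hx⟩ ⟨y, hy⟩
    have key : ∀ w, Rch G T x w → ∀ hw : w ∈ T, (G.induce T).Reachable ⟨x, hx⟩ ⟨w, hw⟩ := by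
      intro w hw
      induction hw with
      | refl => intro _; exact SimpleGraph.Reachable.refl _
      | @tail b c _ hbc ih =>
        intro hc
        refine (ih hbc.1).trans (SimpleGraph.Adj.reachable ?_)
        exact hbc.2.2
    exact key y (h x hx y hy) hy

variable [DecidableEq V]

/-- `G[X]` is obtained by adding simplicial vertices one at a time -/
inductive Elim (G : SimpleGraph V) : Finset V → Prop
  | empty : Elim G ∅
  | insert (X : Finset V) (v : V) (hv : v ∉ X) (hX : Elim G X)
      (hc : ∀ a ∈ X, ∀ b ∈ X, G.Adj v a → G.Adj v b → a ≠ b → G.Adj a b) :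
      Elim G (insert v X)

/-- `a` is simplicial in `G[X ∪ {a}]` -/
def Smp (G : SimpleGraph V) (X : Finset V) (a : V) : Prop :=
  ∀ x ∈ X, ∀ y ∈ X, G.Adj a x → G.Adj a y → x ≠ y → G.Adj x y

omit [DecidableEq V] in
theorem Smp.mono {G : SimpleGraph V} {X Y : Finset V} {a : V} (h : Smp G X a) (hY : Y ⊆ X) :
    Smp G Y a := fun x hx y hy => h x (hY hx) y (hY hy)

theorem Elim.subset {G : SimpleGraph V} {X : Finset V} (h : Elim G X) :
    ∀ Y : Finset V, Y ⊆ X → Elim G Y := by
  induction h with
  | empty => intro Y hY; rw [Finset.subset_empty.1 hY]; exact Elim.empty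
  | insert X v hv hX hc ih =>
    intro Y hY
    by_cases hvY : v ∈ Y
    · have h1 : Y.erase v ⊆ X := by
        intro x hx
        rw [Finset.mem_erase] at hx
        exact (Finset.mem_insert.1 (hY hx.2)).resolve_left hx.1
      rw [← Finset.insert_erase hvY]
      refine Elim.insert _ _ (Finset.notMem_erase _ _) (ih _ h1) ?_
      intro a ha b hb
      exact hc a (h1 ha) b (h1 hb)
    · refine ih Y fun x hx => (Finset.mem_insert.1 (hY hx)).resolve_left ?_
      rintro rfl; exact hvY hx

/-- Dirac: two nonadjacent simplicial vertices -/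
theorem Elim.dirac {G : SimpleGraph V} {X : Finset V} (h : Elim G X) :
    (∃ x ∈ X, ∃ y ∈ X, x ≠ y ∧ ¬ G.Adj x y) →
    ∃ a ∈ X, ∃ b ∈ X, a ≠ b ∧ ¬ G.Adj a b ∧ Smp G X a ∧ Smp G X b := by
  induction h with
  | empty => rintro ⟨x, hx, _⟩; simp at hx
  | insert X v hv hX hc ih =>
    intro hne
    have hvS : Smp G (Insert.insert v X) v := by
      intro x hx y hy h1 h2 hxy
      rw [Finset.mem_insert] at hx hy
      rcases hx with rfl | hx
      · exact absurd h1 (G.loopless.irrefl _)
      rcases hy with rfl | hy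
      · exact absurd h2 (G.loopless.irrefl _)
      exact hc x hx y hy h1 h2 hxy
    by_cases hcl : ∃ x ∈ X, ∃ y ∈ X, x ≠ y ∧ ¬ G.Adj x y
    · obtain ⟨a, ha, b, hb, hab, hnab, hSa, hSb⟩ := ih hcl
      have key : ∀ a ∈ X, Smp G X a → ¬ G.Adj v a → Smp G (Insert.insert v X) a := by
        intro a _ hSa hva x hx y hy h1 h2 hxy
        rw [Finset.mem_insert] at hx hy
        rcases hx with rfl | hx
        · exact absurd h1.symm hva
        rcases hy with rfl | hy
        · exact absurd h2.symm hva
        exact hSa x hx y hy h1 h2 hxy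
      by_cases hva : G.Adj v a
      · have hvb : ¬ G.Adj v b := fun hvb => hnab (hc a ha b hb hva hvb hab)
        refine ⟨b, Finset.mem_insert_of_mem hb, v, Finset.mem_insert_self _ _, ?_, ?_,
          key b hb hSb hvb, hvS⟩
        · rintro rfl; exact hv hb
        · exact fun h => hvb h.symm
      · refine ⟨a, Finset.mem_insert_of_mem ha, v, Finset.mem_insert_self _ _, ?_, ?_,
          key a ha hSa hva, hvS⟩
        · rintro rfl; exact hv ha
        · exact fun h => hva h.symm
    · push Not at hcl
      -- `X` is a clique, so some vertex of `X` is not adjacent to `v`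
      have h2 : ∃ y ∈ X, ¬ G.Adj v y := by
        obtain ⟨x, hx, y, hy, hxy, hnxy⟩ := hne
        rw [Finset.mem_insert] at hx hy
        rcases hx with rfl | hx
        · rcases hy with rfl | hy
          · exact absurd rfl hxy
          · exact ⟨y, hy, hnxy⟩
        · rcases hy with rfl | hy
          · exact ⟨x, hx, fun h => hnxy h.symm⟩
          · exact absurd (hcl x hx y hy hxy) hnxy
      obtain ⟨y, hy, hvy⟩ := h2
      refine ⟨y, Finset.mem_insert_of_mem hy, v, Finset.mem_insert_self _ _, ?_, ?_, ?_, hvS⟩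
      · rintro rfl; exact hv hy
      · exact fun h => hvy h.symm
      · intro x hx z hz h1 h2 hxz
        rw [Finset.mem_insert] at hx hz
        rcases hx with rfl | hx
        · exact absurd h1.symm hvy
        rcases hz with rfl | hz
        · exact absurd h2.symm hvy
        exact hcl x hx z hz hxz

/-- a simplicial vertex outside a proper clique -/
theorem Elim.exists_smp {G : SimpleGraph V} {X K : Finset V} (h : Elim G X) (hK : K ⊆ X)
    (hKc : ∀ x ∈ K, ∀ y ∈ K, x ≠ y → G.Adj x y) (hne : K ≠ X) :
    ∃ a ∈ X, a ∉ K ∧ Smp G X a := by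
  by_cases hcl : ∃ x ∈ X, ∃ y ∈ X, x ≠ y ∧ ¬ G.Adj x y
  · obtain ⟨a, ha, b, hb, hab, hnab, hSa, hSb⟩ := h.dirac hcl
    by_cases haK : a ∈ K
    · refine ⟨b, hb, fun hbK => hnab (hKc a haK b hbK hab), hSb⟩
    · exact ⟨a, ha, haK, hSa⟩
  · push Not at hcl
    obtain ⟨a, ha, haK⟩ : ∃ a ∈ X, a ∉ K := by
      by_contra hcon
      push Not at hcon
      exact hne (Finset.Subset.antisymm hK hcon)
    exact ⟨a, ha, haK, fun x hx y hy _ _ hxy => hcl x hx y hy hxy⟩

/-- joining: the neighbours of `v` in each component of `G[X]` form a clique -/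
theorem Elim.join {G : SimpleGraph V} : ∀ (m : ℕ) (X : Finset V), X.card = m → Elim G X →
    ∀ v, v ∉ X →
    (∀ x ∈ X, ∀ y ∈ X, G.Adj v x → G.Adj v y → x ≠ y → Rch G (X : Set V) x y → G.Adj x y) →
    Elim G (Insert.insert v X) := by
  classical
  intro m
  induction m with
  | zero =>
    intro X hX _ v hv _
    rw [Finset.card_eq_zero] at hX
    subst hX
    exact Elim.insert _ _ hv Elim.empty (by simp)
  | succ m ih =>
    intro X hX hE v hv hH
    by_cases hS : Smp G X v
    · exact Elim.insert _ _ hv hE hS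
    unfold Smp at hS
    push Not at hS
    obtain ⟨x, hx, y, hy, hvx, hvy, hxy, hnxy⟩ := hS
    -- the component of `x`
    set T := X.filter (fun z => Rch G (X : Set V) x z) with hT
    have hTX : T ⊆ X := Finset.filter_subset _ _
    have hTc : ∀ z ∈ T, ∀ w ∈ X, G.Adj z w → w ∈ T := by
      intro z hz w hw hzw
      rw [hT, Finset.mem_filter] at hz ⊢
      exact ⟨hw, hz.2.trans (Rch.adj (by exact_mod_cast hz.1) (by exact_mod_cast hw) hzw)⟩
    set K := T.filter (fun z => G.Adj v z) with hK
    have hKc : ∀ a ∈ K, ∀ b ∈ K, a ≠ b → G.Adj a b := by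
      intro a ha b hb hab
      rw [hK, Finset.mem_filter, hT, Finset.mem_filter] at ha hb
      exact hH a ha.1.1 b hb.1.1 ha.2 hb.2 hab (ha.1.2.symm.trans hb.1.2)
    have hxT : x ∈ T := by rw [hT, Finset.mem_filter]; exact ⟨hx, Rch.rfl'⟩
    -- a simplicial vertex of `X + v` in `X`
    have hex : ∃ a ∈ X, Smp G (Insert.insert v X) a := by
      by_cases hKT : K = T
      · refine ⟨x, hx, ?_⟩
        have hmem : ∀ z ∈ X, G.Adj x z → z ∈ K := fun z hz hxz => by
          rw [hKT]; exact hTc x hxT z hz hxz
        intro a ha b hb h1 h2 hab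
        rw [Finset.mem_insert] at ha hb
        rcases ha with rfl | ha
        · rcases hb with rfl | hb
          · exact absurd rfl hab
          · have := hmem b hb h2
            rw [hK, Finset.mem_filter] at this
            exact this.2
        · rcases hb with rfl | hb
          · have := hmem a ha h1
            rw [hK, Finset.mem_filter] at this
            exact this.2.symm
          · exact hKc a (hmem a ha h1) b (hmem b hb h2) hab
      · obtain ⟨a, ha, haK, hSa⟩ := (hE.subset T hTX).exists_smp (Finset.filter_subset _ _)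
          hKc hKT
        refine ⟨a, hTX ha, ?_⟩
        have hva : ¬ G.Adj v a := fun h => haK (Finset.mem_filter.2 ⟨ha, h⟩)
        intro p hp q hq h1 h2 hpq
        rw [Finset.mem_insert] at hp hq
        rcases hp with rfl | hp
        · exact absurd h1.symm hva
        rcases hq with rfl | hq
        · exact absurd h2.symm hva
        exact hSa p (hTc a ha p hp h1) q (hTc a ha q hq h2) h1 h2 hpq
    obtain ⟨a, ha, hSa⟩ := hex
    have hav : a ≠ v := by rintro rfl; exact hv ha
    have h1 : Elim G (Insert.insert v (X.erase a)) := by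
      refine ih (X.erase a) (by rw [Finset.card_erase_of_mem ha, hX]; rfl)
        (hE.subset _ (Finset.erase_subset _ _)) v (fun h => hv (Finset.mem_of_mem_erase h)) ?_
      intro p hp q hq h1 h2 hpq hr
      refine hH p (Finset.mem_of_mem_erase hp) q (Finset.mem_of_mem_erase hq) h1 h2 hpq
        (hr.mono ?_)
      exact_mod_cast Finset.erase_subset _ _
    have h2 : Insert.insert v X = Insert.insert a (Insert.insert v (X.erase a)) := by
      ext z
      simp only [Finset.mem_insert, Finset.mem_erase]
      constructor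
      · rintro (h | h)
        · exact Or.inr (Or.inl h)
        · by_cases hza : z = a
          · exact Or.inl hza
          · exact Or.inr (Or.inr ⟨hza, h⟩)
      · rintro (h | h | h)
        · exact Or.inr (h ▸ ha)
        · exact Or.inl h
        · exact Or.inr h.2
    rw [h2]
    refine Elim.insert _ _ ?_ h1 ?_
    · rw [Finset.mem_insert, not_or]
      exact ⟨hav, Finset.notMem_erase _ _⟩
    · intro p hp q hq
      refine hSa p ?_ q ?_
      · rw [h2]; exact Finset.mem_insert_of_mem hp
      · rw [h2]; exact Finset.mem_insert_of_mem hq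

end Pool.Agent.Helper762_QL
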