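import Pool.Agent.Helper762_QL.Nodes
import Pool.Agent.Helper805.CHS.Density

set_option autoImplicit false

/-!
# Clusters: a set of edges with many more edges than nodes contains a large clique model
-/

namespace Pool.Agent.Helper762_QL

open Finset

variable {V α β : Type} [DecidableEq V] [DecidableEq α] [DecidableEq β]

/-- the cluster partition -/
structure Clusters (G : SimpleGraph V) (F : Finset V) (k K : ℕ) (ι : Finset (Finset V))
    (cl : Finset V → Finset V) (Q : Finset V) : Prop where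
  con : ∀ A ∈ ι, Con G (cl A)
  sub : ∀ A ∈ ι, cl A ⊆ F
  lo : ∀ A ∈ ι, k ≤ (cl A).card
  hi : ∀ A ∈ ι, (cl A).card ≤ K
  disj : ∀ A ∈ ι, ∀ B ∈ ι, A ≠ B → Disjoint (cl A) (cl B)
  Qsub : Q ⊆ F
  cover : ∀ x ∈ F, x ∉ Q → ∃ A ∈ ι, x ∈ cl A
  Qdisj : ∀ A ∈ ι, Disjoint (cl A) Q
  Qno : ∀ A ∈ ι, ∀ x ∈ cl A, ∀ y ∈ Q, ¬ G.Adj x y
  Qsmall : ∀ T ⊆ Q, Con G T → T.card < k

open Classical in
theorem exists_clusters (G : SimpleGraph V) {d : ℕ}
    (hdeg : ∀ v, ∀ N : Finset V, (∀ w ∈ N, G.Adj v w) → N.card ≤ d) (F : Finset V) (k : ℕ)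
    (hk : 1 ≤ k) : ∃ ι cl Q, Clusters G F k (k + k * (d * k)) ι cl Q := by
  -- a maximal family of disjoint connected `k`-sets
  obtain ⟨ι, hι, hmax⟩ := Finset.exists_max_image
    ((F.powersetCard k).powerset.filter (fun 𝒯 => (∀ A ∈ 𝒯, Con G A) ∧
      ∀ A ∈ 𝒯, ∀ B ∈ 𝒯, A ≠ B → Disjoint A B)) Finset.card ⟨∅, by simp⟩
  rw [Finset.mem_filter, Finset.mem_powerset] at hι
  obtain ⟨hιF, hιc, hιd⟩ := hι
  have hAF : ∀ A ∈ ι, A ⊆ F := fun A hA => (Finset.mem_powersetCard.1 (hιF hA)).1
  have hAk : ∀ A ∈ ι, A.card = k := fun A hA => (Finset.mem_powersetCard.1 (hιF hA)).2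
  set M := ι.biUnion id with hM
  have hAM : ∀ A ∈ ι, A ⊆ M := fun A hA => by
    rw [hM]; exact Finset.subset_biUnion_of_mem id hA
  set Rst := F \ M with hRst
  have hsmall : ∀ T ⊆ Rst, Con G T → T.card < k := by
    intro T hT hc
    by_contra hcon
    push Not at hcon
    obtain ⟨A, hAT, hA, hAk'⟩ := con_grow hc k hk hcon
    have hAι : A ∉ ι := by
      intro h
      obtain ⟨x, hx⟩ := hA.1
      have h1 := hT (hAT hx)
      rw [hRst, Finset.mem_sdiff] at h1
      exact h1.2 (hAM A h hx)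
    have hdj : ∀ B ∈ ι, Disjoint A B := by
      intro B hB
      rw [Finset.disjoint_left]
      intro x hx hxB
      have h1 := hT (hAT hx)
      rw [hRst, Finset.mem_sdiff] at h1
      exact h1.2 (hAM B hB hxB)
    have := hmax (insert A ι) (by
      rw [Finset.mem_filter, Finset.mem_powerset]
      refine ⟨?_, ?_, ?_⟩
      · refine Finset.insert_subset ?_ hιF
        rw [Finset.mem_powersetCard]
        exact ⟨hAT.trans (hT.trans Finset.sdiff_subset), hAk'⟩
      · intro B hB
        rw [Finset.mem_insert] at hB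
        rcases hB with rfl | hB
        · exact hA
        · exact hιc B hB
      · intro B hB C hC hBC
        rw [Finset.mem_insert] at hB hC
        rcases hB with rfl | hB
        · rcases hC with rfl | hC
          · exact absurd rfl hBC
          · exact hdj C hC
        · rcases hC with rfl | hC
          · exact (hdj B hB).symm
          · exact hιd B hB C hC hBC)
    rw [Finset.card_insert_of_notMem hAι] at this
    omega
  -- components of the rest
  let D : V → Finset V := fun x => Rst.filter (fun z => Rch G (Rst : Set V) x z)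
  have hDsub : ∀ x, D x ⊆ Rst := fun x => Finset.filter_subset _ _
  have hDself : ∀ x ∈ Rst, x ∈ D x := fun x hx => by
    simp only [D, Finset.mem_filter]; exact ⟨hx, Rch.rfl'⟩
  have hDcl : ∀ x, ∀ u ∈ D x, ∀ v ∈ Rst, G.Adj u v → v ∈ D x := by
    intro x u hu v hv huv
    simp only [D, Finset.mem_filter] at hu ⊢
    exact ⟨hv, hu.2.trans (Rch.adj (by exact_mod_cast hu.1) (by exact_mod_cast hv) huv)⟩
  have hDeq : ∀ x, ∀ y ∈ D x, D y = D x := by
    intro x y hy
    have hxy : Rch G (Rst : Set V) x y := by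
      simp only [D, Finset.mem_filter] at hy; exact hy.2
    ext z
    simp only [D, Finset.mem_filter]
    exact ⟨fun h => ⟨h.1, hxy.trans h.2⟩, fun h => ⟨h.1, hxy.symm.trans h.2⟩⟩
  have hDcon : ∀ x ∈ Rst, Con G (D x) := by
    intro x hx
    have hxr : ∀ y ∈ D x, Rch G (D x : Set V) x y := by
      intro y hy
      have hy' : Rch G (Rst : Set V) x y := by
        simp only [D, Finset.mem_filter] at hy; exact hy.2
      refine Rch.closed hy' (p := fun y => Rch G (D x : Set V) x y) Rch.rfl' ?_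
      intro a _ b hb hab hra
      have haT : a ∈ (D x : Set V) := hra.mem_right (by exact_mod_cast hDself x hx)
      have hbT : b ∈ (D x : Set V) := by
        exact_mod_cast hDcl x a (by exact_mod_cast haT) b (by exact_mod_cast hb) hab
      exact hra.trans (Rch.adj haT hbT hab)
    exact ⟨⟨x, hDself x hx⟩, fun y hy z hz => (hxr y hy).symm.trans (hxr z hz)⟩
  -- attached components
  let att : Finset V → Prop := fun C => ∃ A ∈ ι, ∃ y ∈ C, ∃ z ∈ A, G.Adj y z
  let ch : Finset V → Finset V := fun C => if h : att C then h.choose else ∅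
  have hch : ∀ C, att C → ch C ∈ ι ∧ ∃ y ∈ C, ∃ z ∈ ch C, G.Adj y z := by
    intro C hC
    simp only [ch, dif_pos hC]
    exact hC.choose_spec
  let cl : Finset V → Finset V := fun A =>
    A ∪ Rst.filter (fun x => att (D x) ∧ ch (D x) = A)
  let Q : Finset V := Rst.filter (fun x => ¬ att (D x))
  have hmemcl : ∀ A x, x ∈ cl A ↔ x ∈ A ∨ (x ∈ Rst ∧ att (D x) ∧ ch (D x) = A) := by
    intro A x
    simp only [cl, Finset.mem_union, Finset.mem_filter]
  have hRM : ∀ x ∈ Rst, ∀ A ∈ ι, x ∉ A := by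
    intro x hx A hA hxA
    rw [hRst, Finset.mem_sdiff] at hx
    exact hx.2 (hAM A hA hxA)
  refine ⟨ι, cl, Q, ?_, ?_, ?_, ?_, ?_, ?_, ?_, ?_, ?_, ?_⟩
  · -- connected
    intro A hA
    have hAcl : A ⊆ cl A := Finset.subset_union_left
    obtain ⟨a0, ha0⟩ := (hιc A hA).1
    have hto : ∀ x ∈ cl A, Rch G (cl A : Set V) a0 x := by
      intro x hx
      rw [hmemcl] at hx
      rcases hx with hx | ⟨hxR, hatt, hchx⟩
      · exact ((hιc A hA).2 a0 ha0 x hx).mono (by exact_mod_cast hAcl)
      · have hDcl' : D x ⊆ cl A := by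
          intro y hy
          rw [hmemcl]
          right
          rw [hDeq x y hy]
          exact ⟨hDsub x hy, hatt, hchx⟩
        obtain ⟨_, y, hy, z, hz, hyz⟩ := hch _ hatt
        rw [hchx] at hz
        have h1 : Rch G (cl A : Set V) y x :=
          ((hDcon x hxR).2 y hy x (hDself x hxR)).mono (by exact_mod_cast hDcl')
        have h2 : Rch G (cl A : Set V) a0 z :=
          ((hιc A hA).2 a0 ha0 z hz).mono (by exact_mod_cast hAcl)
        exact (h2.trans (Rch.adj (by exact_mod_cast hAcl hz) (by exact_mod_cast hDcl' hy)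
          hyz.symm)).trans h1
    exact ⟨⟨a0, hAcl ha0⟩, fun x hx y hy => (hto x hx).symm.trans (hto y hy)⟩
  · intro A hA x hx
    rw [hmemcl] at hx
    rcases hx with hx | ⟨hxR, -⟩
    · exact hAF A hA hx
    · exact (Finset.mem_sdiff.1 hxR).1
  · intro A hA
    rw [← hAk A hA]
    exact Finset.card_le_card Finset.subset_union_left
  · -- size
    intro A hA
    refine (Finset.card_union_le _ _).trans ?_
    rw [hAk A hA]
    refine Nat.add_le_add_left ?_ _
    have hsub : Rst.filter (fun x => att (D x) ∧ ch (D x) = A) ⊆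
        A.biUnion (fun z => (Rst.filter (fun y => G.Adj z y)).biUnion D) := by
      intro x hx
      rw [Finset.mem_filter] at hx
      obtain ⟨hxR, hatt, hchx⟩ := hx
      obtain ⟨_, y, hy, z, hz, hyz⟩ := hch _ hatt
      rw [hchx] at hz
      rw [Finset.mem_biUnion]
      refine ⟨z, hz, ?_⟩
      rw [Finset.mem_biUnion]
      refine ⟨y, by rw [Finset.mem_filter]; exact ⟨hDsub x hy, hyz.symm⟩, ?_⟩
      rw [hDeq x y hy]
      exact hDself x hxR
    refine (Finset.card_le_card hsub).trans ?_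
    rw [← hAk A hA]
    refine (Finset.card_biUnion_le_card_mul A _ (d * A.card) ?_)
    intro z hz
    refine (Finset.card_biUnion_le_card_mul _ D k ?_).trans ?_
    · intro y hy
      rw [Finset.mem_filter] at hy
      exact (hsmall (D y) (hDsub y) (hDcon y hy.1)).le
    · rw [hAk A hA]
      refine Nat.mul_le_mul_right _ (hdeg z _ ?_)
      intro w hw
      exact (Finset.mem_filter.1 hw).2
  · intro A hA B hB hAB
    rw [Finset.disjoint_left]
    intro x hxA hxB
    rw [hmemcl] at hxA hxB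
    rcases hxA with hxA | ⟨hxR, hatt, hchx⟩
    · rcases hxB with hxB | ⟨hxR, _⟩
      · exact Finset.disjoint_left.1 (hιd A hA B hB hAB) hxA hxB
      · exact hRM x hxR A hA hxA
    · rcases hxB with hxB | ⟨_, _, hchx'⟩
      · exact hRM x hxR B hB hxB
      · exact hAB (hchx.symm.trans hchx')
  · exact (Finset.filter_subset _ _).trans Finset.sdiff_subset
  · intro x hxF hxQ
    by_cases hxM : x ∈ M
    · rw [hM, Finset.mem_biUnion] at hxM
      obtain ⟨A, hA, hxA⟩ := hxM
      exact ⟨A, hA, by rw [hmemcl]; exact Or.inl hxA⟩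
    · have hxR : x ∈ Rst := by rw [hRst, Finset.mem_sdiff]; exact ⟨hxF, hxM⟩
      have hatt : att (D x) := by
        by_contra hcon
        exact hxQ (by simp only [Q, Finset.mem_filter]; exact ⟨hxR, hcon⟩)
      exact ⟨ch (D x), (hch _ hatt).1, by rw [hmemcl]; exact Or.inr ⟨hxR, hatt, rfl⟩⟩
  · intro A hA
    rw [Finset.disjoint_left]
    intro x hxA hxQ
    simp only [Q, Finset.mem_filter] at hxQ
    rw [hmemcl] at hxA
    rcases hxA with hxA | ⟨_, hatt, _⟩
    · exact hRM x hxQ.1 A hA hxA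
    · exact hxQ.2 hatt
  · intro A hA x hx y hy hxy
    simp only [Q, Finset.mem_filter] at hy
    rw [hmemcl] at hx
    rcases hx with hx | ⟨hxR, hatt, _⟩
    · exact hy.2 ⟨A, hA, y, hDself y hy.1, x, hx, hxy.symm⟩
    · have h1 : x ∈ D y := hDcl y y (hDself y hy.1) x hxR hxy.symm
      rw [hDeq y x h1] at hatt
      exact hy.2 hatt
  · intro T hT hc
    exact hsmall T (hT.trans (Finset.filter_subset _ _)) hc

open Classical in
/-- **Sparse graphs with an excess contain large clique models.** -/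
theorem excess_model {G : SimpleGraph V} {p : V → α} {q : V → β} (h : IsLine G p q) {d : ℕ}
    (hdeg : ∀ v, ∀ N : Finset V, (∀ w ∈ N, G.Adj v w) → N.card ≤ d) (t Z : ℕ) (hZ : 1 ≤ Z)
    {g : ℕ} (hg : 2 * ((Z * 2 ^ t) + (Z * 2 ^ t) * (d * (Z * 2 ^ t))) ≤ g) (hsp : Sp p q g)
    (F : Finset V) (N : ℕ) (hN : (nodes p q F).card ≤ N) (hex : N < F.card)
    (hF : F.card ≤ Z * (F.card - N)) : Model G (t + 2) (F : Set V) := by
  set k := Z * 2 ^ t with hk
  have hk1 : 1 ≤ k := Nat.mul_pos hZ (pow_pos (by norm_num) t)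
  obtain ⟨ι, cl, Q, hC⟩ := exists_clusters G hdeg F k hk1
  set K := k + k * (d * k) with hK
  have hkK : k ≤ K := Nat.le_add_right _ _
  -- the union of the clusters
  set F1 := ι.biUnion cl with hF1
  have hF1F : F1 ⊆ F := by
    rw [hF1]
    exact Finset.biUnion_subset.2 hC.sub
  have hdj : Disjoint F1 Q := by
    rw [hF1, Finset.disjoint_biUnion_left]
    exact hC.Qdisj
  have hFeq : F = F1 ∪ Q := by
    apply Finset.Subset.antisymm
    · intro x hx
      rw [Finset.mem_union]
      by_cases hxQ : x ∈ Q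
      · exact Or.inr hxQ
      · obtain ⟨A, hA, hxA⟩ := hC.cover x hx hxQ
        left
        rw [hF1, Finset.mem_biUnion]
        exact ⟨A, hA, hxA⟩
    · exact Finset.union_subset hF1F hC.Qsub
  have hF1card : F1.card = ∑ A ∈ ι, (cl A).card := by
    rw [hF1]
    exact Finset.card_biUnion fun A hA B hB hAB => hC.disj A hA B hB hAB
  have hFcard : F.card = F1.card + Q.card := by
    conv_lhs => rw [hFeq]
    exact Finset.card_union_of_disjoint hdj
  have hQn : Q.card ≤ (nodes p q Q).card :=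
    forest_bound h hsp _ Q rfl fun T hT hc => by
      have := hC.Qsmall T hT hc
      omega
  have hnd : Disjoint (nodes p q F1) (nodes p q Q) := by
    refine h.nodes_disjoint hdj ?_
    intro u hu v hv
    rw [hF1, Finset.mem_biUnion] at hu
    obtain ⟨A, hA, huA⟩ := hu
    exact hC.Qno A hA u huA v hv
  have hnF : (nodes p q F).card = (nodes p q F1).card + (nodes p q Q).card := by
    conv_lhs => rw [hFeq]
    rw [nodes_union, Finset.card_union_of_disjoint hnd]
  -- nodes of one cluster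
  have hn1 : ∀ A ∈ ι, (nodes p q (cl A)).card = (cl A).card + 1 := by
    intro A hA
    apply le_antisymm
    · exact con_nodes_le h _ _ rfl (hC.con A hA)
    · refine hsp _ (hC.con A hA).1 ?_
      have := hC.hi A hA
      omega
  -- two clusters have at most one common node
  have hn2 : ∀ A ∈ ι, ∀ B ∈ ι, A ≠ B → (nodes p q (cl A) ∩ nodes p q (cl B)).card ≤ 1 := by
    intro A hA B hB hAB
    have h1 := Finset.card_union_add_card_inter (nodes p q (cl A)) (nodes p q (cl B))
    rw [← nodes_union, hn1 A hA, hn1 B hB] at h1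
    have h2 := hsp (cl A ∪ cl B) ((hC.con A hA).1.mono Finset.subset_union_left) (by
      rw [Finset.card_union_of_disjoint (hC.disj A hA B hB hAB)]
      have := hC.hi A hA
      have := hC.hi B hB
      omega)
    rw [Finset.card_union_of_disjoint (hC.disj A hA B hB hAB)] at h2
    omega
  -- the multiplicities
  let m : α ⊕ β → Finset (Finset V) := fun c => ι.filter (fun A => c ∈ nodes p q (cl A))
  have hsum : ∑ c ∈ nodes p q F1, (m c).card = F1.card + ι.card := by
    have h1 : ∑ c ∈ nodes p q F1, (m c).card = ∑ A ∈ ι, (nodes p q (cl A)).card := by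
      have h2 : ∀ c ∈ nodes p q F1, (m c).card = ∑ A ∈ ι, if c ∈ nodes p q (cl A) then 1 else 0 := by
        intro c _
        rw [Finset.card_filter]
      rw [Finset.sum_congr rfl h2, Finset.sum_comm]
      refine Finset.sum_congr rfl fun A hA => ?_
      rw [← Finset.card_filter]
      congr 1
      ext c
      rw [Finset.mem_filter]
      refine ⟨fun h => h.2, fun h => ⟨?_, h⟩⟩
      exact nodes_mono (by rw [hF1]; exact Finset.subset_biUnion_of_mem cl hA) h
    rw [h1, Finset.sum_congr rfl hn1, Finset.sum_add_distrib, ← hF1card]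
    simp
  have hm1 : ∀ c ∈ nodes p q F1, 1 ≤ (m c).card := by
    intro c hc
    rw [Nat.one_le_iff_ne_zero, Finset.card_ne_zero]
    have hex : ∃ v ∈ F1, c ∈ nodes p q ({v} : Finset V) := by
      rcases c with a | b
      · rw [inl_mem_nodes] at hc
        obtain ⟨v, hv, hva⟩ := hc
        exact ⟨v, hv, by rw [inl_mem_nodes]; exact ⟨v, by simp, hva⟩⟩
      · rw [inr_mem_nodes] at hc
        obtain ⟨v, hv, hva⟩ := hc
        exact ⟨v, hv, by rw [inr_mem_nodes]; exact ⟨v, by simp, hva⟩⟩
    obtain ⟨v, hv, hcv⟩ := hex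
    rw [hF1, Finset.mem_biUnion] at hv
    obtain ⟨A, hA, hvA⟩ := hv
    refine ⟨A, Finset.mem_filter.2 ⟨hA, ?_⟩⟩
    exact nodes_mono (Finset.singleton_subset_iff.2 hvA) hcv
  -- adjacent pairs
  set Pr : Finset (Finset V × Finset V) := (ι ×ˢ ι).filter
    (fun AB => AB.1 ≠ AB.2 ∧ ∃ c, c ∈ nodes p q (cl AB.1) ∧ c ∈ nodes p q (cl AB.2)) with hPr
  have hPrcard : 2 * (F1.card + ι.card) ≤ Pr.card + 2 * (nodes p q F1).card := by
    have h1 : ((nodes p q F1).biUnion (fun c => (m c).offDiag)).card =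
        ∑ c ∈ nodes p q F1, ((m c).offDiag).card := by
      refine Finset.card_biUnion ?_
      intro c _ c' _ hcc'
      rw [Function.onFun, Finset.disjoint_left]
      rintro ⟨A, B⟩ h1 h2
      rw [Finset.mem_offDiag] at h1 h2
      simp only [m, Finset.mem_filter] at h1 h2
      obtain ⟨⟨hA, hcA⟩, ⟨hB, hcB⟩, hAB⟩ := h1
      obtain ⟨⟨_, hcA'⟩, ⟨_, hcB'⟩, _⟩ := h2
      have h3 := hn2 A hA B hB hAB
      rw [Finset.card_le_one] at h3
      exact hcc' (h3 c (Finset.mem_inter.2 ⟨hcA, hcB⟩) c' (Finset.mem_inter.2 ⟨hcA', hcB'⟩))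
    have h2 : (nodes p q F1).biUnion (fun c => (m c).offDiag) ⊆ Pr := by
      intro AB hAB
      rw [Finset.mem_biUnion] at hAB
      obtain ⟨c, _, hc⟩ := hAB
      rw [Finset.mem_offDiag] at hc
      simp only [m, Finset.mem_filter] at hc
      rw [hPr, Finset.mem_filter, Finset.mem_product]
      exact ⟨⟨hc.1.1, hc.2.1.1⟩, hc.2.2, c, hc.1.2, hc.2.1.2⟩
    have h3 := Finset.card_le_card h2
    rw [h1] at h3
    have h4 : ∀ c ∈ nodes p q F1, 2 * (m c).card ≤ ((m c).offDiag).card + 2 := by
      intro c hc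
      rw [Finset.offDiag_card]
      have h5 := hm1 c hc
      obtain ⟨x, hx⟩ : ∃ x, (m c).card = x + 1 := ⟨(m c).card - 1, by omega⟩
      rw [hx]
      have h6 : (x + 1) * (x + 1) - (x + 1) = x * x + x := by
        have : (x + 1) * (x + 1) = (x * x + x) + (x + 1) := by ring
        omega
      rw [h6]
      rcases Nat.eq_zero_or_pos x with rfl | hx0
      · simp
      · nlinarith
    have h5 := Finset.sum_le_sum h4
    rw [← Finset.mul_sum, hsum, Finset.sum_add_distrib] at h5
    simp only [Finset.sum_const, smul_eq_mul] at h5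
    omega
  -- the number of clusters
  have hιk : ι.card * k ≤ F.card := by
    calc ι.card * k ≤ ∑ A ∈ ι, (cl A).card := by
          rw [← smul_eq_mul]
          exact Finset.card_nsmul_le_sum ι _ _ hC.lo
      _ = F1.card := hF1card.symm
      _ ≤ F.card := Finset.card_le_card hF1F
  have hι2 : ι.card * 2 ^ t ≤ F.card - N := by
    have h1 : Z * (ι.card * 2 ^ t) ≤ Z * (F.card - N) := by
      calc Z * (ι.card * 2 ^ t) = ι.card * k := by rw [hk]; ring
        _ ≤ F.card := hιk
        _ ≤ Z * (F.card - N) := hF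
    exact Nat.le_of_mul_le_mul_left h1 hZ
  have hιpos : 0 < ι.card := by
    by_contra hcon
    have h0 : ι = ∅ := by
      rw [← Finset.card_eq_zero]; omega
    have h1 : F1 = ∅ := by rw [hF1, h0]; simp
    rw [h1, Finset.card_empty] at hFcard
    have h2 : (nodes p q Q).card ≤ (nodes p q F).card := by omega
    omega
  -- Mader
  set P : Finset (Set V) := ι.image (fun A => (cl A : Set V)) with hP
  have hinj : ∀ A ∈ ι, ∀ B ∈ ι, (cl A : Set V) = cl B → A = B := by
    intro A hA B hB hAB
    by_contra hne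
    obtain ⟨x, hx⟩ := (hC.con A hA).1
    have hxB : x ∈ cl B := by
      have : x ∈ (cl B : Set V) := hAB ▸ (by exact_mod_cast hx)
      exact_mod_cast this
    exact Finset.disjoint_left.1 (hC.disj A hA B hB hne) hx hxB
  have hPcard : P.card = ι.card := by
    rw [hP]
    exact Finset.card_image_of_injOn fun A hA B hB h => hinj A hA B hB h
  have hfam : Helper805.CHS.Fam G P := by
    constructor
    · intro A hA
      rw [hP, Finset.mem_image] at hA
      obtain ⟨A', hA', rfl⟩ := hA
      exact con_iff.1 (hC.con A' hA')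
    · intro A hA B hB hAB
      rw [hP, Finset.mem_image] at hA hB
      obtain ⟨A', hA', rfl⟩ := hA
      obtain ⟨B', hB', rfl⟩ := hB
      have hne : A' ≠ B' := by rintro rfl; exact hAB rfl
      exact_mod_cast hC.disj A' hA' B' hB' hne
  have hprs : Pr.card ≤ (Helper805.CHS.prs G P).card := by
    refine Finset.card_le_card_of_injOn (fun AB => ((cl AB.1 : Set V), (cl AB.2 : Set V))) ?_ ?_
    · rintro ⟨A, B⟩ hAB
      have hAB' : (A, B) ∈ Pr := by exact_mod_cast hAB
      rw [hPr, Finset.mem_filter, Finset.mem_product] at hAB'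
      obtain ⟨⟨hA, hB⟩, hne, c, hcA, hcB⟩ := hAB'
      dsimp only at hA hB hne hcA hcB ⊢
      rw [Finset.mem_coe, Helper805.CHS.mem_prs]
      refine ⟨Finset.mem_image_of_mem _ hA, Finset.mem_image_of_mem _ hB, ?_, ?_⟩
      · intro heq
        exact hne (hinj A hA B hB heq)
      · obtain ⟨u, hu, v, hv, huv⟩ := h.adj_of_node (hC.disj A hA B hB hne) hcA hcB
        exact ⟨u, by exact_mod_cast hu, v, by exact_mod_cast hv, huv⟩
    · rintro ⟨A, B⟩ hAB ⟨A', B'⟩ hAB' heq
      have h1 : (A, B) ∈ Pr := by exact_mod_cast hAB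
      have h2 : (A', B') ∈ Pr := by exact_mod_cast hAB'
      rw [hPr, Finset.mem_filter, Finset.mem_product] at h1 h2
      simp only [Prod.mk.injEq] at heq ⊢
      exact ⟨hinj A h1.1.1 A' h2.1.1 heq.1, hinj B h1.1.2 B' h2.1.2 heq.2⟩
  have hlt : 2 * (2 ^ t - 1) * P.card < (Helper805.CHS.prs G P).card := by
    have h1 : 2 * (ι.card * 2 ^ t) + 2 * ι.card ≤ Pr.card := by omega
    have h2 : 2 * (2 ^ t - 1) * ι.card ≤ 2 * (ι.card * 2 ^ t) := by
      have : 2 ^ t - 1 ≤ 2 ^ t := Nat.sub_le _ _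
      calc 2 * (2 ^ t - 1) * ι.card ≤ 2 * 2 ^ t * ι.card :=
            Nat.mul_le_mul_right _ (Nat.mul_le_mul_left _ this)
        _ = 2 * (ι.card * 2 ^ t) := by ring
    rw [hPcard]
    omega
  obtain ⟨f, hf1, hf2, hf3, _, hf5⟩ := Helper805.CHS.mader G t P hfam hlt
  refine ⟨f, ?_, hf1, hf2, hf3⟩
  intro i x hx
  obtain ⟨D, hD, hxD⟩ := hf5 i x hx
  rw [hP, Finset.mem_image] at hD
  obtain ⟨A, hA, rfl⟩ := hD
  have : x ∈ cl A := by exact_mod_cast hxD
  exact_mod_cast hC.sub A hA this

end Pool.Agent.Helper762_QL
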