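import Pool.Agent.Helper762_QL.Nodes

set_option autoImplicit false

/-!
# Near-biregular bipartite graphs without short cycles
-/

namespace Pool.Agent.Helper762_QL

open Finset

section

variable {α β : Type} [DecidableEq α] [DecidableEq β]

/-- ends of the edges in `F` -/
abbrev nd (F : Finset (α × β)) : Finset (α ⊕ β) := nodes Prod.fst Prod.snd F

/-- the edge set `E` has no short cycles -/
def SpE (E : Finset (α × β)) (g : ℕ) : Prop :=
  ∀ F ⊆ E, F.Nonempty → F.card ≤ g → F.card + 1 ≤ (nd F).card

/-- the edges of `E` touching `B` -/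
def tch (E : Finset (α × β)) (B : Finset (α ⊕ β)) : Finset (α × β) :=
  E.filter fun e => Sum.inl e.1 ∈ B ∨ Sum.inr e.2 ∈ B

/-- one step of growing -/
def stp (E : Finset (α × β)) (B : Finset (α ⊕ β)) : Finset (α ⊕ β) := B ∪ nd (tch E B)

/-- balls -/
def bl (E : Finset (α × β)) (c : α ⊕ β) : ℕ → Finset (α ⊕ β)
  | 0 => {c}
  | k + 1 => stp E (bl E c k)

theorem nd_card_le (F : Finset (α × β)) : (nd F).card ≤ 2 * F.card := by
  unfold nd nodes
  have h1 := Finset.card_image_le (s := F) (f := fun v => (Sum.inl v.1 : α ⊕ β))
  have h2 := Finset.card_image_le (s := F) (f := fun v => (Sum.inr v.2 : α ⊕ β))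
  have h3 := Finset.card_union_le (F.image fun v => (Sum.inl v.1 : α ⊕ β))
    (F.image fun v => (Sum.inr v.2 : α ⊕ β))
  omega

theorem tch_card_le {E : Finset (α × β)} {D : ℕ}
    (hl : ∀ a, (E.filter fun e => e.1 = a).card ≤ D)
    (hr : ∀ b, (E.filter fun e => e.2 = b).card ≤ D) (B : Finset (α ⊕ β)) :
    (tch E B).card ≤ B.card * D := by
  have hsub : tch E B ⊆ B.biUnion (fun c => Sum.elim (fun a => E.filter fun e => e.1 = a)
      (fun b => E.filter fun e => e.2 = b) c) := by
    intro e he
    rw [tch, Finset.mem_filter] at he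
    rw [Finset.mem_biUnion]
    rcases he.2 with h | h
    · exact ⟨_, h, by simp [he.1]⟩
    · exact ⟨_, h, by simp [he.1]⟩
  refine (Finset.card_le_card hsub).trans (Finset.card_biUnion_le_card_mul _ _ _ ?_)
  intro c _
  rcases c with a | b
  · exact hl a
  · exact hr b

theorem bl_card_le {E : Finset (α × β)} {D : ℕ}
    (hl : ∀ a, (E.filter fun e => e.1 = a).card ≤ D)
    (hr : ∀ b, (E.filter fun e => e.2 = b).card ≤ D) (c : α ⊕ β) (k : ℕ) :
    (bl E c k).card ≤ (1 + 2 * D) ^ k := by
  induction k with
  | zero => simp [bl]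
  | succ k ih =>
    rw [bl, stp, pow_succ]
    refine (Finset.card_union_le _ _).trans ?_
    have h1 := nd_card_le (tch E (bl E c k))
    have h2 := tch_card_le hl hr (bl E c k)
    calc (bl E c k).card + (nd (tch E (bl E c k))).card
        ≤ (bl E c k).card + 2 * ((bl E c k).card * D) := by omega
      _ = (bl E c k).card * (1 + 2 * D) := by ring
      _ ≤ _ := Nat.mul_le_mul_right _ ih

/-- a tree containing `c` lies in the ball around `c` -/
theorem tree_sub_ball {E F : Finset (α × β)} {g : ℕ} (hE : SpE E g) (hF : F ⊆ E)
    (hFg : F.card ≤ g) (hcard : (nd F).card = F.card + 1) {c : α ⊕ β} (hc : c ∈ nd F) :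
    ∀ k, nd F ⊆ bl E c k ∨ k + 1 ≤ (nd F ∩ bl E c k).card := by
  have hself : ∀ k, c ∈ bl E c k := by
    intro k
    induction k with
    | zero => simp [bl]
    | succ k ih => rw [bl, stp]; exact Finset.mem_union_left _ ih
  intro k
  induction k with
  | zero =>
    right
    rw [Nat.zero_add, Nat.one_le_iff_ne_zero, Finset.card_ne_zero]
    exact ⟨c, Finset.mem_inter.2 ⟨hc, hself 0⟩⟩
  | succ k ih =>
    have hmono : bl E c k ⊆ bl E c (k + 1) := by
      rw [bl, stp]; exact Finset.subset_union_left
    rcases ih with ih | ih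
    · exact Or.inl (ih.trans hmono)
    by_cases hk : nd F ⊆ bl E c (k + 1)
    · exact Or.inl hk
    right
    by_contra hcon
    push Not at hcon
    -- no new node
    have hsub : nd F ∩ bl E c k ⊆ nd F ∩ bl E c (k + 1) :=
      Finset.inter_subset_inter (Finset.Subset.refl _) hmono
    have heq : nd F ∩ bl E c k = nd F ∩ bl E c (k + 1) :=
      Finset.eq_of_subset_of_card_le hsub (by omega)
    set F1 := tch F (bl E c k) with hF1
    have hF1F : F1 ⊆ F := Finset.filter_subset _ _
    have hF1t : F1 ⊆ tch E (bl E c k) := by
      intro e he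
      rw [hF1, tch, Finset.mem_filter] at he
      rw [tch, Finset.mem_filter]
      exact ⟨hF he.1, he.2⟩
    have h1 : nd F1 ⊆ bl E c k := by
      intro x hx
      have hx1 : x ∈ nd F := nodes_mono hF1F hx
      have hx2 : x ∈ bl E c (k + 1) := by
        rw [bl, stp]
        exact Finset.mem_union_right _ (nodes_mono hF1t hx)
      have : x ∈ nd F ∩ bl E c k := by rw [heq]; exact Finset.mem_inter.2 ⟨hx1, hx2⟩
      exact (Finset.mem_inter.1 this).2
    have h2 : Disjoint (nd F1) (nd (F \ F1)) := by
      rw [Finset.disjoint_left]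
      intro x hx hx'
      have hxb := h1 hx
      rcases x with a | b
      · rw [inl_mem_nodes] at hx'
        obtain ⟨e, he, hea⟩ := hx'
        rw [Finset.mem_sdiff] at he
        refine he.2 ?_
        rw [hF1, tch, Finset.mem_filter]
        exact ⟨he.1, Or.inl (by rw [hea]; exact hxb)⟩
      · rw [inr_mem_nodes] at hx'
        obtain ⟨e, he, hea⟩ := hx'
        rw [Finset.mem_sdiff] at he
        refine he.2 ?_
        rw [hF1, tch, Finset.mem_filter]
        exact ⟨he.1, Or.inr (by rw [hea]; exact hxb)⟩
    have hne1 : F1.Nonempty := by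
      rcases c with a | b
      · rw [inl_mem_nodes] at hc
        obtain ⟨e, he, hea⟩ := hc
        refine ⟨e, ?_⟩
        rw [hF1, tch, Finset.mem_filter]
        exact ⟨he, Or.inl (by rw [hea]; exact hself k)⟩
      · rw [inr_mem_nodes] at hc
        obtain ⟨e, he, hea⟩ := hc
        refine ⟨e, ?_⟩
        rw [hF1, tch, Finset.mem_filter]
        exact ⟨he, Or.inr (by rw [hea]; exact hself k)⟩
    have hne2 : (F \ F1).Nonempty := by
      rw [Finset.nonempty_iff_ne_empty]
      intro h0
      have h3 : F ⊆ F1 := by rwa [Finset.sdiff_eq_empty_iff_subset] at h0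
      have h4 : F1 = F := Finset.Subset.antisymm hF1F h3
      rw [h4] at h1
      exact hk (h1.trans hmono)
    have hU : F = F1 ∪ (F \ F1) := by rw [Finset.union_sdiff_of_subset hF1F]
    have h5 : (nd F).card = (nd F1).card + (nd (F \ F1)).card := by
      conv_lhs => rw [hU]
      rw [nd, nodes_union, Finset.card_union_of_disjoint h2]
    have h6 : F.card = F1.card + (F \ F1).card := by
      rw [Finset.card_sdiff_of_subset hF1F]
      have := Finset.card_le_card hF1F
      omega
    have h7 := hE F1 (hF1F.trans hF) hne1 (by omega)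
    have h8 := hE (F \ F1) (Finset.sdiff_subset.trans hF) hne2 (by omega)
    omega

end

/-- near-biregular edge sets without short cycles -/
theorem exists_edges (s s' g m : ℕ) (hs : 1 ≤ s) (hs' : 1 ≤ s') :
    ∃ E : Finset (Fin (s' * m) × Fin (s * m)),
      (∀ a, (E.filter fun e => e.1 = a).card ≤ s) ∧
      (∀ b, (E.filter fun e => e.2 = b).card ≤ s') ∧ SpE E g ∧
      s * s' * m ≤ E.card + (1 + 2 * (s + s')) ^ (g + 1) * s' := by
  classical
  obtain ⟨E, hE, hmax⟩ := Finset.exists_max_image
    ((Finset.univ : Finset (Finset (Fin (s' * m) × Fin (s * m)))).filter (fun E =>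
      (∀ a, (E.filter fun e => e.1 = a).card ≤ s) ∧
      (∀ b, (E.filter fun e => e.2 = b).card ≤ s') ∧ SpE E g)) Finset.card ⟨∅, by
        rw [Finset.mem_filter]
        refine ⟨Finset.mem_univ _, by simp, by simp, ?_⟩
        intro F hF hne
        rw [Finset.subset_empty] at hF
        exact absurd hF hne.ne_empty⟩
  rw [Finset.mem_filter] at hE
  obtain ⟨-, hl, hr, hsp⟩ := hE
  refine ⟨E, hl, hr, hsp, ?_⟩
  by_cases hall : ∀ a, (E.filter fun e => e.1 = a).card = s
  · have h1 : E.card = ∑ a : Fin (s' * m), (E.filter fun e => e.1 = a).card :=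
      Finset.card_eq_sum_card_fiberwise fun _ _ => Finset.mem_univ _
    rw [Finset.sum_congr rfl fun a _ => hall a] at h1
    simp only [Finset.sum_const, Finset.card_univ, Fintype.card_fin, smul_eq_mul] at h1
    rw [h1]
    have : s * s' * m = s' * m * s := by ring
    omega
  push Not at hall
  obtain ⟨a, ha⟩ := hall
  have ha' : (E.filter fun e => e.1 = a).card < s := lt_of_le_of_ne (hl a) ha
  set Df : Finset (Fin (s * m)) := Finset.univ.filter fun b => (E.filter fun e => e.2 = b).card < s'
    with hDf
  -- deficient right nodes are close to `a`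
  have hclose : ∀ b ∈ Df, Sum.inr b ∈ bl E (Sum.inl a) (g + 1) := by
    intro b hb
    rw [hDf, Finset.mem_filter] at hb
    have hmono : ∀ k, bl E (Sum.inl a) k ⊆ bl E (Sum.inl a) (k + 1) := by
      intro k; rw [bl, stp]; exact Finset.subset_union_left
    have hself : ∀ k, Sum.inl a ∈ bl E (Sum.inl a) k := by
      intro k
      induction k with
      | zero => simp [bl]
      | succ k ih => exact hmono k ih
    by_cases hab : (a, b) ∈ E
    · rw [bl, stp]
      refine Finset.mem_union_right _ ?_
      rw [inr_mem_nodes]
      refine ⟨(a, b), ?_, rfl⟩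
      rw [tch, Finset.mem_filter]
      exact ⟨hab, Or.inl (hself g)⟩
    · -- the new edge closes a short cycle
      have hnot : ¬ SpE (insert (a, b) E) g := by
        intro hsp'
        have := hmax (insert (a, b) E) (by
          rw [Finset.mem_filter]
          refine ⟨Finset.mem_univ _, ?_, ?_, hsp'⟩
          · intro a'
            rw [Finset.filter_insert]
            split_ifs with h
            · simp only at h
              subst h
              exact (Finset.card_insert_le _ _).trans (by omega)
            · exact hl a'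
          · intro b'
            rw [Finset.filter_insert]
            split_ifs with h
            · simp only at h
              subst h
              exact (Finset.card_insert_le _ _).trans (by have := hb.2; omega)
            · exact hr b')
        rw [Finset.card_insert_of_notMem hab] at this
        omega
      unfold SpE at hnot
      push Not at hnot
      obtain ⟨F, hF, hFne, hFg, hFc⟩ := hnot
      have habF : (a, b) ∈ F := by
        by_contra hcon
        have hFE : F ⊆ E := by
          intro e he
          have := hF he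
          rw [Finset.mem_insert] at this
          rcases this with rfl | h
          · exact absurd he hcon
          · exact h
        have := hsp F hFE hFne hFg
        omega
      set F0 := F.erase (a, b) with hF0
      have hF0E : F0 ⊆ E := by
        intro e he
        rw [hF0, Finset.mem_erase] at he
        have := hF he.2
        rw [Finset.mem_insert] at this
        exact this.resolve_left he.1
      have hF0c : F0.card + 1 = F.card := Finset.card_erase_add_one habF
      have hsub : nd F0 ⊆ nd F := nodes_mono (Finset.erase_subset _ _)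
      have hF0ne : F0.Nonempty := by
        rw [Finset.nonempty_iff_ne_empty]
        intro h0
        rw [h0, Finset.card_empty] at hF0c
        have h1 : ({Sum.inl a, Sum.inr b} : Finset (Fin (s' * m) ⊕ Fin (s * m))) ⊆ nd F := by
          intro x hx
          simp only [Finset.mem_insert, Finset.mem_singleton] at hx
          rcases hx with rfl | rfl
          · rw [inl_mem_nodes]; exact ⟨(a, b), habF, rfl⟩
          · rw [inr_mem_nodes]; exact ⟨(a, b), habF, rfl⟩
        have h2 := Finset.card_le_card h1
        rw [Finset.card_pair (by simp)] at h2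
        omega
      have h1 := hsp F0 hF0E hF0ne (by omega)
      have h2 := Finset.card_le_card hsub
      have h3 : nd F0 = nd F := Finset.eq_of_subset_of_card_le hsub (by omega)
      have h4 : (nd F0).card = F0.card + 1 := by omega
      have haF : Sum.inl a ∈ nd F0 := by
        rw [h3, inl_mem_nodes]; exact ⟨(a, b), habF, rfl⟩
      have hbF : Sum.inr b ∈ nd F0 := by
        rw [h3, inr_mem_nodes]; exact ⟨(a, b), habF, rfl⟩
      have h5 := tree_sub_ball hsp hF0E (by omega) h4 haF (g + 1)
      rcases h5 with h5 | h5
      · exact h5 hbF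
      · have h6 := Finset.card_le_card (Finset.inter_subset_left (s₁ := nd F0)
          (s₂ := bl E (Sum.inl a) (g + 1)))
        omega
  have hDfc : Df.card ≤ (1 + 2 * (s + s')) ^ (g + 1) := by
    have h1 : Df.card ≤ (bl E (Sum.inl a) (g + 1)).card := by
      rw [← Finset.card_image_of_injective Df (Sum.inr_injective (α := Fin (s' * m)))]
      refine Finset.card_le_card ?_
      intro x hx
      rw [Finset.mem_image] at hx
      obtain ⟨b, hb, rfl⟩ := hx
      exact hclose b hb
    exact h1.trans (bl_card_le (fun a => (hl a).trans (by omega))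
      (fun b => (hr b).trans (by omega)) _ _)
  have h1 : E.card = ∑ b : Fin (s * m), (E.filter fun e => e.2 = b).card :=
    Finset.card_eq_sum_card_fiberwise fun _ _ => Finset.mem_univ _
  have h2 : s * m * s' ≤ E.card + Df.card * s' := by
    rw [h1]
    have h3 : ∀ b : Fin (s * m), s' ≤ (E.filter fun e => e.2 = b).card +
        if b ∈ Df then s' else 0 := by
      intro b
      split_ifs with h
      · omega
      · rw [hDf, Finset.mem_filter] at h
        push Not at h
        have := h (Finset.mem_univ _)
        omega
    have h4 := Finset.sum_le_sum fun b (_ : b ∈ (Finset.univ : Finset (Fin (s * m)))) => h3 b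
    rw [Finset.sum_add_distrib, Finset.sum_const, Finset.card_univ, Fintype.card_fin, smul_eq_mul,
      Finset.sum_ite_mem, Finset.univ_inter, Finset.sum_const, smul_eq_mul] at h4
    exact h4
  have h5 : Df.card * s' ≤ (1 + 2 * (s + s')) ^ (g + 1) * s' := Nat.mul_le_mul_right _ hDfc
  have h6 : s * s' * m = s * m * s' := by ring
  omega

/-- the version on `Fin n` -/
theorem exists_sparse (s s' g m : ℕ) (hs : 1 ≤ s) (hs' : 1 ≤ s') :
    ∃ (n : ℕ) (p : Fin n → Fin (s' * m)) (q : Fin n → Fin (s * m)),
      (∀ u v, p u = p v → q u = q v → u = v) ∧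
      (∀ a, (Finset.univ.filter fun u => p u = a).card ≤ s) ∧
      (∀ b, (Finset.univ.filter fun u => q u = b).card ≤ s') ∧ Sp p q g ∧
      s * s' * m ≤ n + (1 + 2 * (s + s')) ^ (g + 1) * s' := by
  obtain ⟨E, hl, hr, hsp, hc⟩ := exists_edges s s' g m hs hs'
  let e := E.equivFin.symm
  let f : Fin E.card ↪ Fin (s' * m) × Fin (s * m) :=
    ⟨fun i => (e i).1, fun i j h => e.injective (Subtype.ext h)⟩
  have hf : ∀ i, f i ∈ E := fun i => (e i).2
  refine ⟨E.card, fun i => (f i).1, fun i => (f i).2, ?_, ?_, ?_, ?_, hc⟩
  · intro u v h1 h2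
    exact f.injective (Prod.ext h1 h2)
  · intro a
    refine le_trans ?_ (hl a)
    rw [← Finset.card_map f]
    refine Finset.card_le_card ?_
    intro x hx
    rw [Finset.mem_map] at hx
    obtain ⟨i, hi, rfl⟩ := hx
    rw [Finset.mem_filter] at hi ⊢
    exact ⟨hf i, hi.2⟩
  · intro b
    refine le_trans ?_ (hr b)
    rw [← Finset.card_map f]
    refine Finset.card_le_card ?_
    intro x hx
    rw [Finset.mem_map] at hx
    obtain ⟨i, hi, rfl⟩ := hx
    rw [Finset.mem_filter] at hi ⊢
    exact ⟨hf i, hi.2⟩
  · intro F hF hFg
    have h1 := hsp (F.map f) (by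
      intro x hx
      rw [Finset.mem_map] at hx
      obtain ⟨i, _, rfl⟩ := hx
      exact hf i) (by simpa using hF) (by rwa [Finset.card_map])
    rw [Finset.card_map] at h1
    refine h1.trans (le_of_eq ?_)
    congr 1
    ext x
    rcases x with a | b
    · rw [inl_mem_nodes, inl_mem_nodes]
      simp
    · rw [inr_mem_nodes, inr_mem_nodes]
      simp

end Pool.Agent.Helper762_QL
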