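import Pool.Agent.Helper762_QL.Basic

set_option autoImplicit false

/-!
# Connecting an elimination set in a connected claw-free graph
-/

namespace Pool.Agent.Helper762_QL

open Finset

variable {V : Type} [DecidableEq V]

/-- no induced claw -/
def ClawFree (G : SimpleGraph V) : Prop :=
  ∀ v a b c, G.Adj v a → G.Adj v b → G.Adj v c → a ≠ b → a ≠ c → b ≠ c →
    G.Adj a b ∨ G.Adj a c ∨ G.Adj b c

omit [DecidableEq V] in
/-- maximal elimination sets of a connected claw-free graph are connected -/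
theorem maximal_connected {V : Type} [DecidableEq V] {G : SimpleGraph V} (hcf : ClawFree G)
    {U X : Finset V} (hXU : X ⊆ U) (hE : Elim G X)
    (hmax : ∀ v ∈ U, v ∉ X → ¬ Elim G (insert v X))
    (hU : ∀ x ∈ U, ∀ y ∈ U, Rch G (U : Set V) x y) :
    ∀ x ∈ X, ∀ y ∈ X, Rch G (X : Set V) x y := by
  classical
  -- every vertex outside has two nonadjacent neighbours in one component
  have key : ∀ v ∈ U, v ∉ X → ∃ x ∈ X, ∃ y ∈ X, G.Adj v x ∧ G.Adj v y ∧ x ≠ y ∧
      Rch G (X : Set V) x y ∧ ¬ G.Adj x y := by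
    intro v hvU hvX
    by_contra hcon
    push Not at hcon
    exact hmax v hvU hvX (Elim.join _ X rfl hE v hvX hcon)
  -- all neighbours of an outside vertex lie in one component
  have key2 : ∀ v ∈ U, v ∉ X → ∀ t ∈ X, ∀ z ∈ X, G.Adj v t → G.Adj v z →
      Rch G (X : Set V) t z := by
    intro v hvU hvX
    obtain ⟨x, hx, y, hy, hvx, hvy, hxy, hr, hnxy⟩ := key v hvU hvX
    have h1 : ∀ z ∈ X, G.Adj v z → Rch G (X : Set V) x z := by
      intro z hz hvz
      by_cases hzx : z = x
      · rw [hzx]; exact Rch.rfl'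
      by_cases hzy : z = y
      · rw [hzy]; exact hr
      rcases hcf v x y z hvx hvy hvz hxy (Ne.symm hzx) (Ne.symm hzy) with h | h | h
      · exact absurd h hnxy
      · exact Rch.adj (by exact_mod_cast hx) (by exact_mod_cast hz) h
      · exact hr.trans (Rch.adj (by exact_mod_cast hy) (by exact_mod_cast hz) h)
    intro t ht z hz hvt hvz
    exact (h1 t ht hvt).symm.trans (h1 z hz hvz)
  intro x0 hx0 y0 hy0
  let P : V → Prop := fun u => (u ∈ X ∧ Rch G (X : Set V) x0 u) ∨
    (u ∉ X ∧ ∃ t ∈ X, Rch G (X : Set V) x0 t ∧ G.Adj u t)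
  have hP : P y0 := by
    refine Rch.closed (hU x0 (hXU hx0) y0 (hXU hy0)) (p := P) (Or.inl ⟨hx0, Rch.rfl'⟩) ?_
    intro u hu w hw huw hPu
    have huU : u ∈ U := by exact_mod_cast hu
    have hwU : w ∈ U := by exact_mod_cast hw
    rcases hPu with ⟨huX, hru⟩ | ⟨huX, t, ht, hrt, hut⟩
    · by_cases hwX : w ∈ X
      · exact Or.inl ⟨hwX, hru.trans (Rch.adj (by exact_mod_cast huX) (by exact_mod_cast hwX) huw)⟩
      · exact Or.inr ⟨hwX, u, huX, hru, huw.symm⟩
    · by_cases hwX : w ∈ X
      · exact Or.inl ⟨hwX, hrt.trans (key2 u huU huX t ht w hwX hut huw)⟩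
      · refine Or.inr ⟨hwX, ?_⟩
        obtain ⟨x, hx, y, hy, hux, huy, hxy, hr, hnxy⟩ := key u huU huX
        have hrx : Rch G (X : Set V) x0 x := hrt.trans (key2 u huU huX t ht x hx hut hux)
        have hxw : x ≠ w := by rintro rfl; exact hwX hx
        have hyw : y ≠ w := by rintro rfl; exact hwX hy
        rcases hcf u x y w hux huy huw hxy hxw hyw with h | h | h
        · exact absurd h hnxy
        · exact ⟨x, hx, hrx, h.symm⟩
        · exact ⟨y, hy, hrx.trans hr, h.symm⟩
  rcases hP with h | h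
  · exact h.2
  · exact absurd hy0 h.1

/-- pairwise unreachable -/
def Sep (G : SimpleGraph V) (X R : Finset V) : Prop :=
  R ⊆ X ∧ ∀ a ∈ R, ∀ b ∈ R, a ≠ b → ¬ Rch G (X : Set V) a b

omit [DecidableEq V] in
/-- reachability in `X + v` -/
theorem rch_insert {V : Type} [DecidableEq V] {G : SimpleGraph V} {X : Finset V} {v : V}
    (hv : v ∉ X) {a b : V} (ha : a ∈ X) (hb : b ∈ X)
    (h : Rch G ((insert v X : Finset V) : Set V) a b) :
    Rch G (X : Set V) a b ∨ ((∃ c ∈ X, G.Adj v c ∧ Rch G (X : Set V) a c) ∧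
      (∃ c ∈ X, G.Adj v c ∧ Rch G (X : Set V) b c)) := by
  classical
  -- first part: what is reached from `a`
  have key : ∀ a ∈ X, ∀ z, Rch G ((insert v X : Finset V) : Set V) a z →
      (z ∈ X ∧ Rch G (X : Set V) a z) ∨ (∃ c ∈ X, G.Adj v c ∧ Rch G (X : Set V) a c) := by
    intro a ha z hz
    refine Rch.closed hz (p := fun z => (z ∈ X ∧ Rch G (X : Set V) a z) ∨
      (∃ c ∈ X, G.Adj v c ∧ Rch G (X : Set V) a c)) (Or.inl ⟨ha, Rch.rfl'⟩) ?_
    intro x hx y hy hxy hp
    rcases hp with ⟨hxX, hr⟩ | hp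
    · by_cases hyX : y ∈ X
      · exact Or.inl ⟨hyX, hr.trans (Rch.adj (by exact_mod_cast hxX) (by exact_mod_cast hyX) hxy)⟩
      · have hyv : y = v := by
          have : y ∈ insert v X := by exact_mod_cast hy
          exact (Finset.mem_insert.1 this).resolve_right hyX
        exact Or.inr ⟨x, hxX, hyv ▸ hxy.symm, hr⟩
    · exact Or.inr hp
  by_cases hab : Rch G (X : Set V) a b
  · exact Or.inl hab
  · right
    constructor
    · rcases key a ha b h with h1 | h1
      · exact absurd h1.2 hab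
      · exact h1
    · rcases key b hb a h.symm with h1 | h1
      · exact absurd h1.2.symm hab
      · exact h1

omit [DecidableEq V] in
/-- adding a vertex to `X` loses at most one representative -/
theorem sep_insert {V : Type} [DecidableEq V] {G : SimpleGraph V} (hcf : ClawFree G)
    {X R : Finset V} (hS : Sep G X R) {v : V} (hv : v ∉ X) :
    ∃ R', Sep G (insert v X) R' ∧ R.card ≤ R'.card + 1 := by
  classical
  by_cases hall : ∀ a ∈ R, ∀ b ∈ R, a ≠ b → ¬ Rch G ((insert v X : Finset V) : Set V) a b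
  · exact ⟨R, ⟨hS.1.trans (Finset.subset_insert _ _), hall⟩, by omega⟩
  push Not at hall
  obtain ⟨p, hp, q, hq, hpq, hr⟩ := hall
  refine ⟨R.erase p, ⟨?_, ?_⟩, ?_⟩
  · exact (Finset.erase_subset _ _).trans (hS.1.trans (Finset.subset_insert _ _))
  · intro a ha b hb hab hr'
    rw [Finset.mem_erase] at ha hb
    have h1 := (rch_insert hv (hS.1 hp) (hS.1 hq) hr).resolve_left (hS.2 p hp q hq hpq)
    have h2 := (rch_insert hv (hS.1 ha.2) (hS.1 hb.2) hr').resolve_left
      (hS.2 a ha.2 b hb.2 hab)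
    -- three representatives with neighbours of `v`: `p`, and two of `a, b, q`
    have three : ∀ a ∈ R, ∀ b ∈ R, ∀ c ∈ R, a ≠ b → a ≠ c → b ≠ c →
        (∃ z ∈ X, G.Adj v z ∧ Rch G (X : Set V) a z) →
        (∃ z ∈ X, G.Adj v z ∧ Rch G (X : Set V) b z) →
        (∃ z ∈ X, G.Adj v z ∧ Rch G (X : Set V) c z) → False := by
      rintro a ha b hb c hc hab hac hbc ⟨x, hx, hvx, hrx⟩ ⟨y, hy, hvy, hry⟩ ⟨z, hz, hvz, hrz⟩
      have hx' : x ∈ (X : Set V) := by exact_mod_cast hx
      have hy' : y ∈ (X : Set V) := by exact_mod_cast hy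
      have hz' : z ∈ (X : Set V) := by exact_mod_cast hz
      have hxy : x ≠ y := by
        rintro rfl; exact hS.2 a ha b hb hab (hrx.trans hry.symm)
      have hxz : x ≠ z := by
        rintro rfl; exact hS.2 a ha c hc hac (hrx.trans hrz.symm)
      have hyz : y ≠ z := by
        rintro rfl; exact hS.2 b hb c hc hbc (hry.trans hrz.symm)
      rcases hcf v x y z hvx hvy hvz hxy hxz hyz with h | h | h
      · exact hS.2 a ha b hb hab ((hrx.trans (Rch.adj hx' hy' h)).trans hry.symm)
      · exact hS.2 a ha c hc hac ((hrx.trans (Rch.adj hx' hz' h)).trans hrz.symm)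
      · exact hS.2 b hb c hc hbc ((hry.trans (Rch.adj hy' hz' h)).trans hrz.symm)
    exact three p hp a ha.2 b hb.2 (Ne.symm ha.1) (Ne.symm hb.1) hab h1.1 h2.1 h2.2
  · rw [Finset.card_erase_of_mem hp]
    omega

omit [DecidableEq V] in
/-- adding several vertices -/
theorem sep_grow {V : Type} [DecidableEq V] {G : SimpleGraph V} (hcf : ClawFree G)
    {X R : Finset V} (hS : Sep G X R) (Y : Finset V) (hXY : X ⊆ Y) :
    ∃ R', Sep G Y R' ∧ R.card + X.card ≤ R'.card + Y.card := by
  classical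
  obtain ⟨D, hD, rfl⟩ : ∃ D : Finset V, Disjoint D X ∧ Y = D ∪ X := by
    refine ⟨Y \ X, Finset.sdiff_disjoint, ?_⟩
    rw [Finset.sdiff_union_of_subset hXY]
  clear hXY
  induction D using Finset.induction_on with
  | empty => exact ⟨R, by simpa using hS, by simp⟩
  | insert v D hv ih =>
    rw [Finset.disjoint_insert_left] at hD
    obtain ⟨R', hR', hc⟩ := ih hD.2
    have hv' : v ∉ D ∪ X := by
      rw [Finset.mem_union, not_or]; exact ⟨hv, hD.1⟩
    obtain ⟨R'', hR'', hc'⟩ := sep_insert hcf hR' hv'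
    refine ⟨R'', by rwa [Finset.insert_union], ?_⟩
    rw [Finset.insert_union, Finset.card_insert_of_notMem hv']
    omega

omit [DecidableEq V] in
/-- The extension: in a connected claw-free graph an elimination set with `k` pairwise unreachable
vertices extends to a connected elimination set with at least `k - 1` further vertices. -/
theorem extend {V : Type} [DecidableEq V] {G : SimpleGraph V} (hcf : ClawFree G)
    {U X R : Finset V} (hXU : X ⊆ U) (hE : Elim G X) (hS : Sep G X R)
    (hU : ∀ x ∈ U, ∀ y ∈ U, Rch G (U : Set V) x y) :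
    ∃ Y ⊆ U, Elim G Y ∧ R.card + X.card ≤ Y.card + 1 := by
  classical
  obtain ⟨Y, hY, hmax⟩ := Finset.exists_max_image
    (U.powerset.filter (fun Y => X ⊆ Y ∧ Elim G Y)) Finset.card
    ⟨X, by simp [hXU, hE]⟩
  rw [Finset.mem_filter, Finset.mem_powerset] at hY
  have hmax' : ∀ v ∈ U, v ∉ Y → ¬ Elim G (insert v Y) := by
    intro v hvU hvY hE'
    have := hmax (insert v Y) (by
      rw [Finset.mem_filter, Finset.mem_powerset]
      exact ⟨Finset.insert_subset hvU hY.1, hY.2.1.trans (Finset.subset_insert _ _), hE'⟩)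
    rw [Finset.card_insert_of_notMem hvY] at this
    omega
  have hconn := maximal_connected hcf hY.1 hY.2.2 hmax' hU
  obtain ⟨R', hR', hc⟩ := sep_grow hcf hS Y hY.2.1
  have hR1 : R'.card ≤ 1 := by
    rw [Finset.card_le_one]
    intro a ha b hb
    by_contra hab
    exact hR'.2 a ha b hb hab (hconn a (hR'.1 ha) b (hR'.1 hb))
  exact ⟨Y, hY.1, hY.2.2, by omega⟩

end Pool.Agent.Helper762_QL
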