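import Pool.Agent.Helper762_QL.Avg

set_option autoImplicit false

/-!
# The local inequality at a vertex whose neighbourhood is the union of two cliques
-/

namespace Pool.Agent.Helper762_QL

open Finset

/-- the constant -/
noncomputable def alpha (d : ℕ) : ℝ := 1 / (((d / 2 : ℕ) : ℝ) + 1) + 1 / ((((d + 1) / 2 : ℕ) : ℝ) + 1)

theorem alpha_le {d a b : ℕ} (h : a + b ≤ d) :
    alpha d ≤ 1 / ((a : ℝ) + 1) + 1 / ((b : ℝ) + 1) := by
  set p : ℕ := d / 2 + 1 with hp
  set q : ℕ := (d + 1) / 2 + 1 with hq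
  have hpq : q = p ∨ q = p + 1 := by omega
  have hsum : p + q = d + 2 := by omega
  have hp0 : (0 : ℝ) < p := by rw [hp]; positivity
  have hq0 : (0 : ℝ) < q := by rw [hq]; positivity
  have hal : alpha d = 1 / (p : ℝ) + 1 / (q : ℝ) := by
    rw [alpha, hp, hq]; push_cast; rfl
  have key : ∀ x : ℕ, 1 ≤ x → ((p : ℝ) + q - x) / (p * q) ≤ 1 / (x : ℝ) := by
    intro x hx
    have hx0 : (0 : ℝ) < x := by exact_mod_cast hx
    rw [div_le_div_iff₀ (mul_pos hp0 hq0) hx0]
    have h1 : (0 : ℝ) ≤ ((x : ℝ) - p) * ((x : ℝ) - q) := by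
      rcases hpq with h | h
      · rw [h]; exact mul_self_nonneg _
      · rw [h]
        push_cast
        rcases Nat.lt_or_ge p x with h2 | h2
        · have h3 : (p : ℝ) + 1 ≤ x := by exact_mod_cast h2
          exact mul_nonneg (by linarith) (by linarith)
        · have h3 : (x : ℝ) ≤ p := by exact_mod_cast h2
          exact mul_nonneg_of_nonpos_of_nonpos (by linarith) (by linarith)
    nlinarith
  have h1 := key (a + 1) (by omega)
  have h2 := key (b + 1) (by omega)
  push_cast at h1 h2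
  rw [hal]
  refine le_trans ?_ (add_le_add h1 h2)
  rw [← add_div, div_add_div _ _ hp0.ne' hq0.ne']
  apply div_le_div_of_nonneg_right _ (mul_pos hp0 hq0).le
  have h3 : ((a : ℝ) + b) + 2 ≤ p + q := by
    have : a + b + 2 ≤ p + q := by omega
    exact_mod_cast this
  linarith

theorem alpha_eq (d : ℕ) : ∃ a b : ℕ, a + b = d ∧
    alpha d = 1 / ((a : ℝ) + 1) + 1 / ((b : ℝ) + 1) :=
  ⟨d / 2, (d + 1) / 2, by omega, rfl⟩

theorem alpha_anti {d e : ℕ} (h : d ≤ e) : alpha e ≤ alpha d := by
  obtain ⟨a, b, hab, he⟩ := alpha_eq d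
  rw [he]
  exact alpha_le (by omega)

theorem alpha_le_one {d : ℕ} (h : 2 ≤ d) : alpha d ≤ 1 := by
  have : alpha 2 = 1 := by norm_num [alpha]
  rw [← this]
  exact alpha_anti h

theorem alpha_pos (d : ℕ) : 0 < alpha d := by
  rw [alpha]; positivity

open Classical in
/-- the weight at a vertex whose neighbourhood is covered by two cliques -/
noncomputable def phi2 {V : Type} (A : Set V) (s : Finset V) : ℝ :=
  1 / (((s.filter (fun w => w ∈ A)).card : ℝ) + 1) +
    1 / (((s.filter (fun w => w ∉ A)).card : ℝ) + 1)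

open Classical in
theorem phi2_local {V : Type} (G : SimpleGraph V) (v : V) (A B : Set V)
    (hAB : ∀ w, G.Adj v w → w ∈ A ∨ w ∈ B)
    (hA : ∀ x ∈ A, ∀ y ∈ A, x ≠ y → G.Adj x y) (hB : ∀ x ∈ B, ∀ y ∈ B, x ≠ y → G.Adj x y) :
    LocalIneq G v (phi2 A) := by
  intro s hs
  set sA := s.filter (fun w => w ∈ A) with hsA
  set sB := s.filter (fun w => w ∉ A) with hsB
  set a := sA.card with ha
  set b := sB.card with hb
  have hcard : s.card = a + b := by
    rw [ha, hb, hsA, hsB, Finset.card_filter_add_card_filter_not]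
  have hBmem : ∀ w ∈ sB, w ∈ B := by
    intro w hw
    rw [hsB, Finset.mem_filter] at hw
    exact (hAB w (hs w hw.1)).resolve_left hw.2
  -- the sum
  have hsplit : ∑ w ∈ s, phi2 A (s.erase w) =
      ∑ w ∈ sA, phi2 A (s.erase w) + ∑ w ∈ sB, phi2 A (s.erase w) := by
    rw [hsA, hsB, Finset.sum_filter_add_sum_filter_not]
  have h1 : ∀ w ∈ sA, phi2 A (s.erase w) = 1 / (((a - 1 : ℕ) : ℝ) + 1) + 1 / ((b : ℝ) + 1) := by
    intro w hw
    have hw' := hw
    rw [hsA, Finset.mem_filter] at hw'
    have e1 : (s.erase w).filter (fun w => w ∈ A) = sA.erase w := by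
      rw [hsA, Finset.filter_erase]
    have e2 : (s.erase w).filter (fun w => w ∉ A) = sB := by
      rw [Finset.filter_erase, ← hsB, Finset.erase_eq_of_notMem]
      rw [hsB, Finset.mem_filter]
      exact fun h => h.2 hw'.2
    rw [phi2, e1, e2, Finset.card_erase_of_mem hw]
  have h2 : ∀ w ∈ sB, phi2 A (s.erase w) = 1 / ((a : ℝ) + 1) + 1 / (((b - 1 : ℕ) : ℝ) + 1) := by
    intro w hw
    have hw' := hw
    rw [hsB, Finset.mem_filter] at hw'
    have e1 : (s.erase w).filter (fun w => w ∉ A) = sB.erase w := by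
      rw [hsB, Finset.filter_erase]
    have e2 : (s.erase w).filter (fun w => w ∈ A) = sA := by
      rw [Finset.filter_erase, ← hsA, Finset.erase_eq_of_notMem]
      rw [hsA, Finset.mem_filter]
      exact fun h => hw'.2 h.2
    rw [phi2, e1, e2, Finset.card_erase_of_mem hw]
  rw [hsplit, Finset.sum_congr rfl h1, Finset.sum_congr rfl h2, Finset.sum_const,
    Finset.sum_const, nsmul_eq_mul, nsmul_eq_mul, ← ha, ← hb]
  have hphi : phi2 A s = 1 / ((a : ℝ) + 1) + 1 / ((b : ℝ) + 1) := rfl
  rw [hphi, hcard]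
  push_cast
  have hA0 : (0 : ℝ) < (a : ℝ) + 1 := by positivity
  have hB0 : (0 : ℝ) < (b : ℝ) + 1 := by positivity
  rcases Nat.eq_zero_or_pos a with ha0 | ha0
  · rcases Nat.eq_zero_or_pos b with hb0 | hb0
    · have hs0 : s = ∅ := by
        rw [← Finset.card_eq_zero, hcard, ha0, hb0]
      have hcl : Clq G s := by rw [hs0]; intro x hx; simp at hx
      rw [if_pos hcl, if_pos hs0, ha0, hb0]
      norm_num
    · -- only `B`
      have hcl : Clq G s := by
        intro x hx y hy hxy
        have hx' : x ∈ sB := by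
          rw [hsB, Finset.mem_filter]
          refine ⟨hx, fun hxA => ?_⟩
          have : x ∈ sA := by rw [hsA, Finset.mem_filter]; exact ⟨hx, hxA⟩
          rw [Finset.card_eq_zero.1 (ha.symm.trans ha0)] at this
          simp at this
        have hy' : y ∈ sB := by
          rw [hsB, Finset.mem_filter]
          refine ⟨hy, fun hyA => ?_⟩
          have : y ∈ sA := by rw [hsA, Finset.mem_filter]; exact ⟨hy, hyA⟩
          rw [Finset.card_eq_zero.1 (ha.symm.trans ha0)] at this
          simp at this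
        exact hB x (hBmem x hx') y (hBmem y hy') hxy
      have hne : s ≠ ∅ := by
        intro h0
        rw [h0, Finset.card_empty] at hcard
        omega
      obtain ⟨b', hb'⟩ : ∃ b', b = b' + 1 := ⟨b - 1, by omega⟩
      rw [if_pos hcl, if_neg hne, ha0, hb']
      have e : ((b' + 1 - 1 : ℕ) : ℝ) = b' := by simp
      rw [e]
      push_cast
      have h3 : (0 : ℝ) < (b' : ℝ) + 1 := by positivity
      have h4 : (0 : ℝ) < (b' : ℝ) + 1 + 1 := by positivity
      apply le_of_eq
      field_simp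
      ring
  · rcases Nat.eq_zero_or_pos b with hb0 | hb0
    · have hcl : Clq G s := by
        intro x hx y hy hxy
        have hmem : ∀ z ∈ s, z ∈ A := by
          intro z hz
          by_contra hzA
          have : z ∈ sB := by rw [hsB, Finset.mem_filter]; exact ⟨hz, hzA⟩
          rw [Finset.card_eq_zero.1 (hb.symm.trans hb0)] at this
          simp at this
        exact hA x (hmem x hx) y (hmem y hy) hxy
      have hne : s ≠ ∅ := by
        intro h0
        rw [h0, Finset.card_empty] at hcard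
        omega
      obtain ⟨a', ha'⟩ : ∃ a', a = a' + 1 := ⟨a - 1, by omega⟩
      rw [if_pos hcl, if_neg hne, hb0, ha']
      have e : ((a' + 1 - 1 : ℕ) : ℝ) = a' := by simp
      rw [e]
      push_cast
      have h3 : (0 : ℝ) < (a' : ℝ) + 1 := by positivity
      have h4 : (0 : ℝ) < (a' : ℝ) + 1 + 1 := by positivity
      apply le_of_eq
      field_simp
      ring
    · obtain ⟨a', ha'⟩ : ∃ a', a = a' + 1 := ⟨a - 1, by omega⟩
      obtain ⟨b', hb'⟩ : ∃ b', b = b' + 1 := ⟨b - 1, by omega⟩
      have h0 : (0 : ℝ) ≤ (if Clq G s then (1 : ℝ) else 0) := by split_ifs <;> norm_num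
      have h0' : (0 : ℝ) ≤ (if s = ∅ then (1 : ℝ) else 0) := by split_ifs <;> norm_num
      rw [ha', hb']
      have e1 : ((a' + 1 - 1 : ℕ) : ℝ) = a' := by simp
      have e2 : ((b' + 1 - 1 : ℕ) : ℝ) = b' := by simp
      rw [e1, e2]
      push_cast
      have h3 : (0 : ℝ) < (a' : ℝ) + 1 := by positivity
      have h4 : (0 : ℝ) < (a' : ℝ) + 1 + 1 := by positivity
      have h5 : (0 : ℝ) < (b' : ℝ) + 1 := by positivity
      have h6 : (0 : ℝ) < (b' : ℝ) + 1 + 1 := by positivity
      have key : ((a' : ℝ) + 1 + (b' + 1) + 1) * (1 / ((a' : ℝ) + 1 + 1) + 1 / ((b' : ℝ) + 1 + 1)) =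
          ((a' : ℝ) + 1) * (1 / ((a' : ℝ) + 1) + 1 / ((b' : ℝ) + 1 + 1)) +
            ((b' : ℝ) + 1) * (1 / ((a' : ℝ) + 1 + 1) + 1 / ((b' : ℝ) + 1)) := by
        field_simp
        ring
      rw [key]
      linarith

open Classical in
theorem phi2_bound {V : Type} (A : Set V) (s : Finset V) {d : ℕ} (h : s.card ≤ d) :
    alpha d ≤ phi2 A s := by
  refine alpha_le ?_
  rw [Finset.card_filter_add_card_filter_not]
  exact h

end Pool.Agent.Helper762_QL
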