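import Pool.Agent.Helper762_QL.Exist
import Pool.Agent.Helper762_QL.Cluster
import Pool.Agent.Helper762_QL.Local

set_option autoImplicit false

/-!
# The lower bounds
-/

namespace Pool.Agent.Helper762_QL

open Finset

/-- sparse line graphs -/
structure SpLine (d g : ℕ) (K : ℝ) (n : ℕ) (G : SimpleGraph (Fin n)) : Prop where
  ex : ∃ (a b : ℕ) (p : Fin n → Fin a) (q : Fin n → Fin b),
    (∀ u v, p u = p v → q u = q v → u = v) ∧ IsLine G p q ∧ Sp p q g ∧
      ((a : ℝ) + b ≤ alpha d * n + K)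
  deg : ∀ v, ∀ N : Finset (Fin n), (∀ w ∈ N, G.Adj v w) → N.card ≤ d

theorem exists_spLine (d g : ℕ) : ∃ K : ℝ, 0 ≤ K ∧ ∀ m : ℕ, ∃ n : ℕ, m ≤ n ∧
    ∃ G : SimpleGraph (Fin n), SpLine d g K n G := by
  classical
  set s := d / 2 + 1 with hs
  set s' := (d + 1) / 2 + 1 with hs'
  set K0 := (1 + 2 * (s + s')) ^ (g + 1) * s' with hK0
  refine ⟨alpha d * K0, mul_nonneg (alpha_pos d).le (Nat.cast_nonneg _), ?_⟩
  intro m
  obtain ⟨n, p, q, hinj, hl, hr, hsp, hc⟩ := exists_sparse s s' g (m + K0) (by omega) (by omega)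
  have hmn : m ≤ n := by
    have h1 : m + K0 ≤ s * s' * (m + K0) :=
      Nat.le_mul_of_pos_left _ (Nat.mul_pos (by omega) (by omega))
    omega
  refine ⟨n, hmn, ?_⟩
  let G : SimpleGraph (Fin n) :=
    { Adj := fun u v => u ≠ v ∧ (p u = p v ∨ q u = q v)
      symm := ⟨fun u v h => ⟨h.1.symm, h.2.imp Eq.symm Eq.symm⟩⟩
      loopless := ⟨fun u h => h.1 rfl⟩ }
  refine ⟨G, ⟨⟨s' * (m + K0), s * (m + K0), p, q, hinj, ⟨fun u v => Iff.rfl⟩, hsp, ?_⟩, ?_⟩⟩
  · have hs0 : (0 : ℝ) < s := by rw [hs]; positivity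
    have hs0' : (0 : ℝ) < s' := by rw [hs']; positivity
    have hal : alpha d = 1 / (s : ℝ) + 1 / (s' : ℝ) := by
      rw [alpha, hs, hs']; push_cast; rfl
    have h1 : (s : ℝ) * s' * ((m : ℝ) + K0) ≤ n + K0 := by
      have := hc
      rw [← hK0] at this
      exact_mod_cast this
    have h2 : ((s' * (m + K0) : ℕ) : ℝ) + ((s * (m + K0) : ℕ) : ℝ) =
        alpha d * ((s : ℝ) * s' * ((m : ℝ) + K0)) := by
      rw [hal]
      push_cast
      field_simp
    rw [h2]
    have h3 := mul_le_mul_of_nonneg_left h1 (alpha_pos d).le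
    linarith
  · intro v N hN
    have hsub : N ⊆ (Finset.univ.filter fun u => p u = p v).erase v ∪
        (Finset.univ.filter fun u => q u = q v).erase v := by
      intro w hw
      have h1 := hN w hw
      rw [Finset.mem_union, Finset.mem_erase, Finset.mem_erase, Finset.mem_filter,
        Finset.mem_filter]
      rcases h1 with ⟨h1, h2 | h2⟩
      · exact Or.inl ⟨h1.symm, Finset.mem_univ _, h2.symm⟩
      · exact Or.inr ⟨h1.symm, Finset.mem_univ _, h2.symm⟩
    have h1 := Finset.card_le_card hsub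
    have h2 := Finset.card_union_le ((Finset.univ.filter fun u => p u = p v).erase v)
      ((Finset.univ.filter fun u => q u = q v).erase v)
    rw [Finset.card_erase_of_mem (by simp), Finset.card_erase_of_mem (by simp)] at h2
    have h3 := hl (p v)
    have h4 := hr (q v)
    omega

theorem nodes_le {n a b : ℕ} (p : Fin n → Fin a) (q : Fin n → Fin b) (F : Finset (Fin n)) :
    (nodes p q F).card ≤ a + b := by
  have := Finset.card_le_univ (nodes p q F)
  simpa using this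

/-- lower bound for fragmentation -/
theorem lower_frag (d : ℕ) (c : ℝ)
    (h : ∀ ε : ℝ, 0 < ε → ∃ C : ℕ, ∀ (g n : ℕ) (K : ℝ) (G : SimpleGraph (Fin n)),
      SpLine d g K n G → ∃ S : Finset (Fin n), (S.card : ℝ) ≤ (c + ε) * (n : ℝ) ∧
        ∀ T : Set (Fin n), Disjoint T (S : Set (Fin n)) → (G.induce T).Connected →
          T.ncard ≤ C) : 1 - alpha d ≤ c := by
  classical
  by_contra hcon
  push Not at hcon
  set ε := (1 - alpha d - c) / 2 with hε
  have hε0 : 0 < ε := by rw [hε]; linarith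
  obtain ⟨C, hC⟩ := h ε hε0
  obtain ⟨K, hK0, hK⟩ := exists_spLine d C
  obtain ⟨m, hm⟩ := exists_nat_gt (K / ε)
  obtain ⟨n, hmn, G, hG⟩ := hK m
  obtain ⟨S, hS, hT⟩ := hC C n K G hG
  obtain ⟨a, b, p, q, hinj, hline, hsp, hab⟩ := hG.ex
  have h1 : (Sᶜ).card ≤ (nodes p q Sᶜ).card := by
    refine forest_bound hline hsp _ Sᶜ rfl ?_
    intro T hTS hcon
    have := hT (T : Set (Fin n)) (by
      rw [Set.disjoint_left]
      intro x hx hxS
      have h2 := hTS (by exact_mod_cast hx : x ∈ T)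
      rw [Finset.mem_compl] at h2
      exact h2 (by exact_mod_cast hxS)) (con_iff.1 hcon)
    rwa [Set.ncard_coe_finset] at this
  have h2 := nodes_le p q Sᶜ
  have h3 : (Sᶜ.card : ℝ) = n - S.card := by
    rw [Finset.card_compl, Fintype.card_fin, Nat.cast_sub]
    have := Finset.card_le_univ S
    simpa using this
  have h4 : (Sᶜ.card : ℝ) ≤ a + b := by exact_mod_cast h1.trans h2
  have h5 : K < ε * n := by
    rw [div_lt_iff₀ hε0] at hm
    have : (m : ℝ) ≤ n := by exact_mod_cast hmn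
    nlinarith
  rw [h3] at h4
  nlinarith

/-- lower bound for clique minors -/
theorem lower_model (d r : ℕ) (c : ℝ)
    (h : ∀ ε : ℝ, 0 < ε → ∃ N : ℕ, ∀ (g n : ℕ) (K : ℝ) (G : SimpleGraph (Fin n)), N ≤ n →
      SpLine d g K n G → ∃ S : Finset (Fin n), (S.card : ℝ) ≤ (c + ε) * (n : ℝ) ∧
        ¬ ∃ f : Fin r → Set (Fin n),
            (∀ i, Disjoint (f i) (S : Set (Fin n))) ∧
            (∀ i, (G.induce (f i)).Connected) ∧
            (∀ i j, i ≠ j → Disjoint (f i) (f j)) ∧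
            (∀ i j, i ≠ j → ∃ u ∈ f i, ∃ v ∈ f j, G.Adj u v)) : 1 - alpha d ≤ c := by
  classical
  by_contra hcon
  push Not at hcon
  set ε := (1 - alpha d - c) / 4 with hε
  have hε0 : 0 < ε := by rw [hε]; linarith
  obtain ⟨N, hN⟩ := h ε hε0
  -- parameters
  obtain ⟨Z0, hZ0⟩ := exists_nat_ge (1 / ε)
  set Z := Z0 + 1 with hZ
  set t := r with ht
  set g := 2 * ((Z * 2 ^ t) + (Z * 2 ^ t) * (d * (Z * 2 ^ t))) with hg
  obtain ⟨K, hK0, hK⟩ := exists_spLine d g
  obtain ⟨m, hm⟩ := exists_nat_gt (K / ε)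
  obtain ⟨n, hmn, G, hG⟩ := hK (max (max m N) 1)
  obtain ⟨S, hS, hf⟩ := hN g n K G ((le_max_right _ _).trans ((le_max_left _ _).trans hmn)) hG
  obtain ⟨a, b, p, q, hinj, hline, hsp, hab⟩ := hG.ex
  have h5 : K < ε * n := by
    rw [div_lt_iff₀ hε0] at hm
    have : (m : ℝ) ≤ n := by
      exact_mod_cast (le_max_left _ _).trans ((le_max_left _ _).trans hmn)
    nlinarith
  have hn1 : (1 : ℝ) ≤ n := by exact_mod_cast (le_max_right _ _).trans hmn
  have h3 : (Sᶜ.card : ℝ) = n - S.card := by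
    rw [Finset.card_compl, Fintype.card_fin, Nat.cast_sub]
    have := Finset.card_le_univ S
    simpa using this
  have h6 : ((a + b : ℕ) : ℝ) + ε * n < Sᶜ.card := by
    rw [h3]
    push_cast
    nlinarith
  have h7 : a + b < Sᶜ.card := by
    have : ((a + b : ℕ) : ℝ) < Sᶜ.card := by
      have : 0 < ε * n := mul_pos hε0 (by linarith)
      linarith
    exact_mod_cast this
  have h8 : Sᶜ.card ≤ Z * (Sᶜ.card - (a + b)) := by
    have h9 : (Sᶜ.card : ℝ) ≤ Z * ((Sᶜ.card : ℝ) - (a + b : ℕ)) := by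
      have h10 : (Sᶜ.card : ℝ) ≤ n := by
        rw [h3]
        have : (0 : ℝ) ≤ S.card := Nat.cast_nonneg _
        linarith
      have h11 : (1 : ℝ) ≤ ε * Z := by
        rw [div_le_iff₀ hε0] at hZ0
        rw [hZ]; push_cast
        nlinarith
      have hZ1 : (0 : ℝ) ≤ Z := Nat.cast_nonneg _
      calc (Sᶜ.card : ℝ) ≤ n := h10
        _ ≤ (ε * Z) * n := by nlinarith
        _ = Z * (ε * n) := by ring
        _ ≤ _ := mul_le_mul_of_nonneg_left (by linarith) hZ1
    have h12 : ((Z * (Sᶜ.card - (a + b)) : ℕ) : ℝ) = Z * ((Sᶜ.card : ℝ) - (a + b : ℕ)) := by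
      rw [Nat.cast_mul, Nat.cast_sub h7.le]
    rw [← h12] at h9
    exact_mod_cast h9
  have hM := excess_model hline hG.deg t Z (by omega) (le_of_eq hg.symm) hsp Sᶜ (a + b)
    (nodes_le p q _) h7 h8
  have hM' : Model G r ((Sᶜ : Finset (Fin n)) : Set (Fin n)) :=
    hM.mono (by omega) (Set.Subset.refl _)
  obtain ⟨f, h1, h2, h3', h4⟩ := hM'
  refine hf ⟨f, ?_, h2, h3', h4⟩
  intro i
  rw [Set.disjoint_left]
  intro x hx hxS
  have := h1 i hx
  rw [Finset.coe_compl] at this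
  exact this hxS

end Pool.Agent.Helper762_QL
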