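import Pool.Agent.Helper762_QL.TD
import Pool.Agent.Helper762_QL.Local

set_option autoImplicit false

/-!
# Clique models inside elimination sets, and the two upper bounds
-/

namespace Pool.Agent.Helper762_QL

open Finset

variable {V : Type}

/-- a model of `K_r` inside `Y` -/
def Model (G : SimpleGraph V) (r : ℕ) (Y : Set V) : Prop :=
  ∃ f : Fin r → Set V, (∀ i, f i ⊆ Y) ∧ (∀ i, (G.induce (f i)).Connected) ∧
    (∀ i j, i ≠ j → Disjoint (f i) (f j)) ∧
    (∀ i j, i ≠ j → ∃ u ∈ f i, ∃ v ∈ f j, G.Adj u v)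

theorem Model.mono {G : SimpleGraph V} {r r' : ℕ} {Y Y' : Set V} (h : Model G r Y)
    (hr : r' ≤ r) (hY : Y ⊆ Y') : Model G r' Y' := by
  obtain ⟨f, h1, h2, h3, h4⟩ := h
  refine ⟨fun i => f (Fin.castLE hr i), fun i => (h1 _).trans hY, fun i => h2 _, ?_, ?_⟩
  · intro i j hij
    exact h3 _ _ fun h => hij (Fin.castLE_injective hr h)
  · intro i j hij
    exact h4 _ _ fun h => hij (Fin.castLE_injective hr h)

theorem Model.remove {G : SimpleGraph V} {r : ℕ} {Y : Set V} {v : V}
    (h : Model G (r + 1) (insert v Y)) : Model G r Y := by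
  obtain ⟨f, h1, h2, h3, h4⟩ := h
  obtain ⟨i0, hi0⟩ : ∃ i0, ∀ i, i ≠ i0 → v ∉ f i := by
    by_cases hex : ∃ i, v ∈ f i
    · obtain ⟨i, hi⟩ := hex
      exact ⟨i, fun j hj hvj => Set.disjoint_left.1 (h3 j i hj) hvj hi⟩
    · push Not at hex
      exact ⟨0, fun i _ => hex i⟩
  refine ⟨fun i => f (i0.succAbove i), ?_, fun i => h2 _, ?_, ?_⟩
  · intro i x hx
    rcases h1 _ hx with h | h
    · subst h
      exact absurd hx (hi0 _ (Fin.succAbove_ne _ _))
    · exact h
  · intro i j hij
    exact h3 _ _ fun h => hij (Fin.succAbove_right_injective h)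
  · intro i j hij
    exact h4 _ _ fun h => hij (Fin.succAbove_right_injective h)

open Classical in
/-- adding a simplicial vertex of small degree creates no large clique model -/
theorem Model.simplicial [DecidableEq V] {G : SimpleGraph V} {r : ℕ} {X : Finset V} {v : V}
    (hv : v ∉ X) (hS : Smp G X v)
    (hcard : (X.filter (fun w => G.Adj v w)).card + 2 ≤ r)
    (h : Model G r ((insert v X : Finset V) : Set V)) : Model G r (X : Set V) := by
  obtain ⟨f, h1, h2, h3, h4⟩ := h
  have hmem : ∀ i x, x ∈ f i → x ≠ v → x ∈ X := by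
    intro i x hx hxv
    have : x ∈ insert v X := by exact_mod_cast h1 i hx
    exact (Finset.mem_insert.1 this).resolve_left hxv
  by_cases hex : ∃ i, v ∈ f i
  swap
  · push Not at hex
    refine ⟨f, ?_, h2, h3, h4⟩
    intro i x hx
    have : x ∈ X := hmem i x hx (by rintro rfl; exact hex i hx)
    exact_mod_cast this
  obtain ⟨i, hi⟩ := hex
  have hvj : ∀ j, j ≠ i → v ∉ f j := fun j hj hvj =>
    Set.disjoint_left.1 (h3 j i hj) hvj hi
  -- a neighbour of `v` in `f i`
  by_cases hsing : f i = {v}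
  · -- the other branch sets contain distinct neighbours of `v`
    exfalso
    have hpick : ∀ j : {j : Fin r // j ≠ i}, ∃ w ∈ f j.1, G.Adj v w := by
      rintro ⟨j, hj⟩
      obtain ⟨u, hu, w, hw, huw⟩ := h4 i j (Ne.symm hj)
      rw [hsing, Set.mem_singleton_iff] at hu
      subst hu
      exact ⟨w, hw, huw⟩
    choose w hw hvw using hpick
    have hinj : Function.Injective w := by
      intro a b hab
      by_contra hne
      have hne' : a.1 ≠ b.1 := fun h => hne (Subtype.ext h)
      exact Set.disjoint_left.1 (h3 _ _ hne') (hw a) (hab ▸ hw b)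
    have hle : Fintype.card {j : Fin r // j ≠ i} ≤ (X.filter (fun w => G.Adj v w)).card := by
      rw [← Finset.card_univ]
      refine Finset.card_le_card_of_injOn w ?_ (fun a _ b _ h => hinj h)
      intro a _
      simp only [Finset.coe_filter, Set.mem_setOf_eq]
      exact ⟨hmem _ _ (hw a) (hvw a).ne', hvw a⟩
    have hc : Fintype.card {j : Fin r // j ≠ i} = r - 1 := by
      simp [Fintype.card_subtype_compl]
    rw [hc] at hle
    omega
  · -- remove `v` from `f i`
    have hnb : ∃ c ∈ f i, c ≠ v ∧ G.Adj v c := by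
      obtain ⟨z, hz, hzv⟩ : ∃ z ∈ f i, z ≠ v := by
        by_contra hcon
        push Not at hcon
        apply hsing
        ext y
        rw [Set.mem_singleton_iff]
        exact ⟨hcon y, fun h => h ▸ hi⟩
      have hr := (conn_iff.1 (h2 i)).2 v hi z hz
      by_contra hcon
      push Not at hcon
      apply hzv
      refine Rch.closed hr (p := fun y => y = v) rfl ?_
      intro x _ y hy hxy hxv
      subst hxv
      by_contra hyx
      exact hcon y hy hyx hxy
    have hclq : ∀ a ∈ X, ∀ b ∈ X, G.Adj v a → G.Adj v b → a ≠ b → G.Adj a b := hS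
    let g : Fin r → Set V := fun j => if j = i then f i \ {v} else f j
    have hgi : g i = f i \ {v} := if_pos rfl
    have hgj : ∀ j, j ≠ i → g j = f j := fun j hj => if_neg hj
    refine ⟨g, ?_, ?_, ?_, ?_⟩
    · intro j x hx
      by_cases hj : j = i
      · subst hj
        rw [hgi] at hx
        exact_mod_cast hmem _ x hx.1 hx.2
      · rw [hgj j hj] at hx
        exact_mod_cast hmem _ x hx (by rintro rfl; exact hvj j hj hx)
    · intro j
      by_cases hj : j = i
      · subst hj
        rw [hgi, conn_iff]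
        obtain ⟨c, hc, hcv, hvc⟩ := hnb
        refine ⟨⟨c, hc, hcv⟩, ?_⟩
        intro x hx y hy
        have hr := (conn_iff.1 (h2 j)).2 x hx.1 y hy.1
        have key := Rch.closed hr (p := fun z => (z ≠ v ∧ Rch G (f j \ {v}) x z) ∨
          (z = v ∧ ∃ c ∈ f j, c ≠ v ∧ G.Adj v c ∧ Rch G (f j \ {v}) x c))
          (Or.inl ⟨hx.2, Rch.rfl'⟩) (by
            intro p hp q hq hpq hpp
            rcases hpp with ⟨hpv, hrp⟩ | ⟨hpv, c', hc', hcv', hvc', hrc'⟩
            · by_cases hqv : q = v
              · right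
                refine ⟨hqv, p, hp, hpv, ?_, hrp⟩
                rw [← hqv]; exact hpq.symm
              · exact Or.inl ⟨hqv, hrp.trans (Rch.adj ⟨hp, hpv⟩ ⟨hq, hqv⟩ hpq)⟩
            · subst hpv
              left
              refine ⟨hpq.ne', ?_⟩
              by_cases hcq : c' = q
              · rw [← hcq]; exact hrc'
              · refine hrc'.trans (Rch.adj ⟨hc', hcv'⟩ ⟨hq, hpq.ne'⟩ ?_)
                exact hclq c' (hmem _ _ hc' hcv') q (hmem _ _ hq hpq.ne') hvc' hpq hcq)
        rcases key with h | h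
        · exact h.2
        · exact absurd h.1 hy.2
      · rw [hgj j hj]; exact h2 j
    · intro j k hjk
      have hsub : ∀ j, g j ⊆ f j := by
        intro j
        by_cases hj : j = i
        · subst hj; rw [hgi]; exact Set.diff_subset
        · rw [hgj j hj]
      exact Set.disjoint_of_subset (hsub j) (hsub k) (h3 j k hjk)
    · -- adjacency
      have key : ∀ k, k ≠ i → ∃ u ∈ g i, ∃ w ∈ f k, G.Adj u w := by
        intro k hk
        obtain ⟨u, hu, w, hw, huw⟩ := h4 i k (Ne.symm hk)
        by_cases huv : u = v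
        · subst huv
          obtain ⟨c, hc, hcv, hvc⟩ := hnb
          refine ⟨c, by rw [hgi]; exact ⟨hc, hcv⟩, w, hw, ?_⟩
          refine hclq c (hmem _ _ hc hcv) w (hmem _ _ hw huw.ne') hvc huw ?_
          rintro rfl
          exact Set.disjoint_left.1 (h3 i k (Ne.symm hk)) hc hw
        · exact ⟨u, by rw [hgi]; exact ⟨hu, huv⟩, w, hw, huw⟩
      intro j k hjk
      by_cases hj : j = i
      · subst hj
        rw [hgj k (Ne.symm hjk)]
        exact key k (Ne.symm hjk)
      · by_cases hk : k = i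
        · subst hk
          rw [hgj j hj]
          obtain ⟨u, hu, w, hw, huw⟩ := key j hj
          exact ⟨w, hw, u, hu, huw.symm⟩
        · rw [hgj j hj, hgj k hk]
          exact h4 j k hjk

/-- elimination sets of graphs of maximum degree at most `d` have no `K_(d+2)` model -/
theorem Elim.no_model [DecidableEq V] {G : SimpleGraph V} {d : ℕ}
    (hdeg : ∀ v, ∀ N : Finset V, (∀ w ∈ N, G.Adj v w) → N.card ≤ d) {X : Finset V}
    (h : Elim G X) : ¬ Model G (d + 2) (X : Set V) := by
  classical
  induction h with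
  | empty =>
    rintro ⟨f, h1, h2, _⟩
    obtain ⟨⟨z, hz⟩⟩ := (h2 0).nonempty
    have := h1 0 hz
    simp at this
  | insert X v hv hX hc ih =>
    intro hM
    refine ih (Model.simplicial hv hc ?_ hM)
    have := hdeg v (X.filter (fun w => G.Adj v w)) (fun w hw => (Finset.mem_filter.1 hw).2)
    omega

/-- a connected set inside the union of two parts without edges between them -/
theorem conn_split {G : SimpleGraph V} {Y Z T : Set V} (hYZ : ∀ y ∈ Y, ∀ z ∈ Z, ¬ G.Adj y z)
    (hd : Disjoint Y Z) (hT : T ⊆ Y ∪ Z) (hc : (G.induce T).Connected) : T ⊆ Y ∨ T ⊆ Z := by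
  rw [conn_iff] at hc
  obtain ⟨⟨t, ht⟩, hr⟩ := hc
  rcases hT ht with h | h
  · left
    intro x hx
    refine Rch.closed (hr t ht x hx) (p := fun x => x ∈ Y) h ?_
    intro p _ q hq hpq hpY
    exact (hT hq).resolve_right fun hqZ => hYZ p hpY q hqZ hpq
  · right
    intro x hx
    refine Rch.closed (hr t ht x hx) (p := fun x => x ∈ Z) h ?_
    intro p _ q hq hpq hpZ
    exact (hT hq).resolve_left fun hqY => hYZ q hqY p hpZ hpq.symm

theorem Model.split {G : SimpleGraph V} {r : ℕ} {Y Z : Set V} (hr : 1 ≤ r)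
    (hYZ : ∀ y ∈ Y, ∀ z ∈ Z, ¬ G.Adj y z) (hd : Disjoint Y Z) (h : Model G r (Y ∪ Z)) :
    Model G r Y ∨ Model G r Z := by
  obtain ⟨f, h1, h2, h3, h4⟩ := h
  have hs : ∀ i, f i ⊆ Y ∨ f i ⊆ Z := fun i => conn_split hYZ hd (h1 i) (h2 i)
  have hne : ∀ i, (f i).Nonempty := fun i => (conn_iff.1 (h2 i)).1
  let i0 : Fin r := ⟨0, hr⟩
  rcases hs i0 with h0 | h0
  · left
    refine ⟨f, ?_, h2, h3, h4⟩
    intro i
    by_cases hi : i = i0
    · rw [hi]; exact h0
    rcases hs i with h | h
    · exact h
    · exfalso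
      obtain ⟨u, hu, w, hw, huw⟩ := h4 i i0 hi
      exact hYZ w (h0 hw) u (h hu) huw.symm
  · right
    refine ⟨f, ?_, h2, h3, h4⟩
    intro i
    by_cases hi : i = i0
    · rw [hi]; exact h0
    rcases hs i with h | h
    · exfalso
      obtain ⟨u, hu, w, hw, huw⟩ := h4 i i0 hi
      exact hYZ u (h hu) w (h0 hw) huw
    · exact h

end Pool.Agent.Helper762_QL
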