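import Pool.Agent.Helper762_QL.Minor

set_option autoImplicit false

/-!
# Line graphs of bipartite graphs without short cycles: nodes and sparsity
-/

namespace Pool.Agent.Helper762_QL

open Finset

variable {V α β : Type} [DecidableEq V] [DecidableEq α] [DecidableEq β]

/-- the ends of the edges in `F` -/
def nodes (p : V → α) (q : V → β) (F : Finset V) : Finset (α ⊕ β) :=
  (F.image fun v => Sum.inl (p v)) ∪ (F.image fun v => Sum.inr (q v))

theorem inl_mem_nodes {p : V → α} {q : V → β} {F : Finset V} {a : α} :
    (Sum.inl a : α ⊕ β) ∈ nodes p q F ↔ ∃ v ∈ F, p v = a := by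
  simp [nodes]

theorem inr_mem_nodes {p : V → α} {q : V → β} {F : Finset V} {b : β} :
    (Sum.inr b : α ⊕ β) ∈ nodes p q F ↔ ∃ v ∈ F, q v = b := by
  simp [nodes]

theorem nodes_mono {p : V → α} {q : V → β} {F F' : Finset V} (h : F ⊆ F') :
    nodes p q F ⊆ nodes p q F' :=
  Finset.union_subset_union (Finset.image_subset_image h) (Finset.image_subset_image h)

theorem nodes_union (p : V → α) (q : V → β) (F F' : Finset V) :
    nodes p q (F ∪ F') = nodes p q F ∪ nodes p q F' := by
  unfold nodes
  rw [Finset.image_union, Finset.image_union]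
  ext x
  simp only [Finset.mem_union]
  tauto

theorem nodes_empty (p : V → α) (q : V → β) : nodes p q (∅ : Finset V) = ∅ := by
  simp [nodes]

/-- `F` has no short cycles -/
def Sp (p : V → α) (q : V → β) (g : ℕ) : Prop :=
  ∀ F : Finset V, F.Nonempty → F.card ≤ g → F.card + 1 ≤ (nodes p q F).card

/-- the line graph structure -/
structure IsLine (G : SimpleGraph V) (p : V → α) (q : V → β) : Prop where
  adj : ∀ u v, G.Adj u v ↔ u ≠ v ∧ (p u = p v ∨ q u = q v)

/-- finite connected sets -/
def Con (G : SimpleGraph V) (T : Finset V) : Prop :=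
  T.Nonempty ∧ ∀ x ∈ T, ∀ y ∈ T, Rch G (T : Set V) x y

omit [DecidableEq V] in
theorem con_iff {G : SimpleGraph V} {T : Finset V} :
    Con G T ↔ (G.induce (T : Set V)).Connected := by
  rw [conn_iff]
  exact Iff.rfl

/-- a common node of two disjoint sets gives an edge -/
theorem IsLine.adj_of_node {G : SimpleGraph V} {p : V → α} {q : V → β} (h : IsLine G p q)
    {S T : Finset V} (hST : Disjoint S T) {c : α ⊕ β} (hS : c ∈ nodes p q S)
    (hT : c ∈ nodes p q T) : ∃ u ∈ S, ∃ v ∈ T, G.Adj u v := by
  rcases c with a | b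
  · rw [inl_mem_nodes] at hS hT
    obtain ⟨u, hu, hua⟩ := hS
    obtain ⟨v, hv, hva⟩ := hT
    refine ⟨u, hu, v, hv, (h.adj u v).2 ⟨?_, Or.inl (hua.trans hva.symm)⟩⟩
    rintro rfl
    exact Finset.disjoint_left.1 hST hu hv
  · rw [inr_mem_nodes] at hS hT
    obtain ⟨u, hu, hua⟩ := hS
    obtain ⟨v, hv, hva⟩ := hT
    refine ⟨u, hu, v, hv, (h.adj u v).2 ⟨?_, Or.inr (hua.trans hva.symm)⟩⟩
    rintro rfl
    exact Finset.disjoint_left.1 hST hu hv

/-- parts without edges between them have disjoint node sets -/
theorem IsLine.nodes_disjoint {G : SimpleGraph V} {p : V → α} {q : V → β} (h : IsLine G p q)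
    {S T : Finset V} (hST : Disjoint S T) (hno : ∀ u ∈ S, ∀ v ∈ T, ¬ G.Adj u v) :
    Disjoint (nodes p q S) (nodes p q T) := by
  rw [Finset.disjoint_left]
  intro c hS hT
  obtain ⟨u, hu, v, hv, huv⟩ := h.adj_of_node hST hS hT
  exact hno u hu v hv huv

/-- the component of `x` in `F` -/
theorem exists_comp (G : SimpleGraph V) (F : Finset V) {x : V} (hx : x ∈ F) :
    ∃ T ⊆ F, x ∈ T ∧ Con G T ∧ (∀ u ∈ T, ∀ v ∈ F, G.Adj u v → v ∈ T) ∧
      ∀ y, y ∈ T ↔ y ∈ F ∧ Rch G (F : Set V) x y := by
  classical
  set T := F.filter (fun z => Rch G (F : Set V) x z) with hT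
  have hTF : T ⊆ F := Finset.filter_subset _ _
  have hxT : x ∈ T := by rw [hT, Finset.mem_filter]; exact ⟨hx, Rch.rfl'⟩
  have hcl : ∀ u ∈ T, ∀ v ∈ F, G.Adj u v → v ∈ T := by
    intro u hu w hw huw
    rw [hT, Finset.mem_filter] at hu ⊢
    exact ⟨hw, hu.2.trans (Rch.adj (by exact_mod_cast hu.1) (by exact_mod_cast hw) huw)⟩
  have hxr : ∀ y ∈ T, Rch G (T : Set V) x y := by
    intro y hy
    rw [hT, Finset.mem_filter] at hy
    refine Rch.closed hy.2 (p := fun y => Rch G (T : Set V) x y) Rch.rfl' ?_
    intro a _ b hb hab hra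
    have haT : a ∈ (T : Set V) := hra.mem_right (by exact_mod_cast hxT)
    have hbT : b ∈ (T : Set V) := by
      exact_mod_cast hcl a (by exact_mod_cast haT) b (by exact_mod_cast hb) hab
    exact hra.trans (Rch.adj haT hbT hab)
  refine ⟨T, hTF, hxT, ⟨⟨x, hxT⟩, fun y hy z hz => (hxr y hy).symm.trans (hxr z hz)⟩, hcl, ?_⟩
  intro y
  rw [hT, Finset.mem_filter]

/-- if all connected subsets of `F` are small then `F` is a forest -/
theorem forest_bound {G : SimpleGraph V} {p : V → α} {q : V → β} (h : IsLine G p q) {g : ℕ}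
    (hsp : Sp p q g) : ∀ (m : ℕ) (F : Finset V), F.card = m →
    (∀ T ⊆ F, Con G T → T.card ≤ g) → F.card ≤ (nodes p q F).card := by
  intro m
  induction m using Nat.strong_induction_on with
  | _ m ih =>
  intro F hF hsmall
  rcases F.eq_empty_or_nonempty with rfl | ⟨x, hx⟩
  · simp
  obtain ⟨T, hTF, hxT, hcon, hcl, -⟩ := exists_comp G F hx
  have h1 := hsp T ⟨x, hxT⟩ (hsmall T hTF hcon)
  have h2 := ih (F \ T).card (by
    rw [← hF]; exact Finset.card_lt_card (Finset.sdiff_ssubset hTF ⟨x, hxT⟩)) (F \ T) rfl
    (fun S hS hc => hsmall S (hS.trans Finset.sdiff_subset) hc)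
  have h3 : Disjoint (nodes p q T) (nodes p q (F \ T)) := by
    refine h.nodes_disjoint Finset.disjoint_sdiff ?_
    intro u hu v hv huv
    rw [Finset.mem_sdiff] at hv
    exact hv.2 (hcl u hu v hv.1 huv)
  have h4 : F = T ∪ (F \ T) := by rw [Finset.union_sdiff_of_subset hTF]
  have h5 : (nodes p q F).card = (nodes p q T).card + (nodes p q (F \ T)).card := by
    conv_lhs => rw [h4]
    rw [nodes_union, Finset.card_union_of_disjoint h3]
  have h6 : F.card = T.card + (F \ T).card := by
    rw [Finset.card_sdiff_of_subset hTF]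
    have := Finset.card_le_card hTF
    omega
  omega

/-- growing a connected subset -/
theorem con_grow {G : SimpleGraph V} {T : Finset V} (hT : Con G T) :
    ∀ k : ℕ, 1 ≤ k → k ≤ T.card → ∃ A ⊆ T, Con G A ∧ A.card = k := by
  intro k
  induction k with
  | zero => intro h; omega
  | succ k ih =>
    intro _ hk
    rcases Nat.eq_zero_or_pos k with rfl | hk0
    · obtain ⟨x, hx⟩ := hT.1
      refine ⟨{x}, by simpa using hx, ⟨by simp, ?_⟩, by simp⟩
      intro a ha b hb
      simp only [Finset.mem_singleton] at ha hb
      subst ha hb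
      exact Rch.rfl'
    · obtain ⟨A, hAT, hA, hAk⟩ := ih hk0 (by omega)
      -- an edge leaving `A`
      have hex : ∃ a ∈ A, ∃ y ∈ T, y ∉ A ∧ G.Adj a y := by
        by_contra hcon
        push Not at hcon
        obtain ⟨x, hx⟩ := hA.1
        have hall : T ⊆ A := by
          intro y hy
          refine Rch.closed (hT.2 x (hAT hx) y hy) (p := fun y => y ∈ A) hx ?_
          intro a _ b hb hab haA
          by_contra hbA
          exact hcon a haA b (by exact_mod_cast hb) hbA hab
        have := Finset.card_le_card hall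
        omega
      obtain ⟨a, ha, y, hy, hyA, hay⟩ := hex
      refine ⟨insert y A, Finset.insert_subset hy hAT, ⟨⟨y, Finset.mem_insert_self _ _⟩, ?_⟩,
        by rw [Finset.card_insert_of_notMem hyA, hAk]⟩
      have hsub : (A : Set V) ⊆ ((insert y A : Finset V) : Set V) := by
        exact_mod_cast Finset.subset_insert y A
      have hto : ∀ z ∈ insert y A, Rch G ((insert y A : Finset V) : Set V) a z := by
        intro z hz
        rw [Finset.mem_insert] at hz
        rcases hz with rfl | hz
        · exact Rch.adj (hsub (by exact_mod_cast ha)) (by simp) hay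
        · exact (hA.2 a ha z hz).mono hsub
      intro u hu w hw
      exact (hto u hu).symm.trans (hto w hw)

/-- a connected set of edges spans at most one node more than it has edges -/
theorem con_nodes_le {G : SimpleGraph V} {p : V → α} {q : V → β} (h : IsLine G p q) :
    ∀ (m : ℕ) (T : Finset V), T.card = m → Con G T → (nodes p q T).card ≤ T.card + 1 := by
  intro m
  induction m with
  | zero =>
    intro T hT hc
    rw [Finset.card_eq_zero] at hT
    exact absurd hT hc.1.ne_empty
  | succ m ih =>
    intro T hT hc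
    rcases Nat.eq_zero_or_pos m with rfl | hm
    · obtain ⟨x, rfl⟩ := Finset.card_eq_one.1 hT
      have : nodes p q ({x} : Finset V) = {Sum.inl (p x), Sum.inr (q x)} := by
        unfold nodes
        rw [Finset.image_singleton, Finset.image_singleton]
        rfl
      rw [this]
      exact (Finset.card_le_two).trans (by simp)
    · -- choose `A ⊆ T` connected with `m` elements; `T = A + y` with `y` adjacent to `A`
      obtain ⟨A, hAT, hA, hAm⟩ := con_grow hc m hm (by omega)
      obtain ⟨y, hy⟩ : ∃ y, T \ A = {y} := by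
        rw [← Finset.card_eq_one, Finset.card_sdiff_of_subset hAT, hT, hAm]
        omega
      have hTy : T = insert y A := by
        rw [← Finset.union_sdiff_of_subset hAT, hy, Finset.union_comm]
        rfl
      have hyA : y ∉ A := by
        have : y ∈ T \ A := by rw [hy]; simp
        exact (Finset.mem_sdiff.1 this).2
      have hex : ∃ a ∈ A, G.Adj a y := by
        by_contra hcon
        push Not at hcon
        obtain ⟨x, hx⟩ := hA.1
        have hyT : y ∈ T := by rw [hTy]; simp
        have : y ∈ A := by
          refine Rch.closed (hc.2 x (hAT hx) y hyT) (p := fun y => y ∈ A) hx ?_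
          intro a _ b hb hab haA
          have hb' : b ∈ T := by exact_mod_cast hb
          rw [hTy, Finset.mem_insert] at hb'
          rcases hb' with rfl | hb'
          · exact absurd hab (hcon a haA)
          · exact hb'
        exact hyA this
      obtain ⟨a, ha, hay⟩ := hex
      have h1 := ih A hAm hA
      rw [hTy, Finset.card_insert_of_notMem hyA]
      have h2 : nodes p q (insert y A) ⊆ (if p a = p y then {Sum.inr (q y)} else
          {Sum.inl (p y)}) ∪ nodes p q A := by
        intro c hc
        have hadj := ((h.adj a y).1 hay).2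
        rcases c with c | c
        · rw [inl_mem_nodes] at hc
          obtain ⟨v, hv, hvc⟩ := hc
          rw [Finset.mem_insert] at hv
          rw [Finset.mem_union]
          rcases hv with rfl | hv
          · by_cases hp : p a = p v
            · right; rw [inl_mem_nodes]; exact ⟨a, ha, hp.trans hvc⟩
            · left; rw [if_neg hp, hvc]; simp
          · right; rw [inl_mem_nodes]; exact ⟨v, hv, hvc⟩
        · rw [inr_mem_nodes] at hc
          obtain ⟨v, hv, hvc⟩ := hc
          rw [Finset.mem_insert] at hv
          rw [Finset.mem_union]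
          rcases hv with rfl | hv
          · by_cases hp : p a = p v
            · left; rw [if_pos hp, hvc]; simp
            · right; rw [inr_mem_nodes]; exact ⟨a, ha, (hadj.resolve_left hp).trans hvc⟩
          · right; rw [inr_mem_nodes]; exact ⟨v, hv, hvc⟩
      refine (Finset.card_le_card h2).trans ((Finset.card_union_le _ _).trans ?_)
      have h3 : (if p a = p y then ({Sum.inr (q y)} : Finset (α ⊕ β)) else
          {Sum.inl (p y)}).card = 1 := by
        split_ifs <;> simp
      omega

end Pool.Agent.Helper762_QL
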