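import Pool.Agent.Helper762_QL.Upper
import Pool.Agent.Helper762_QL.Lower

set_option autoImplicit false

/-!
# The stabilisation problem for quasi-line graphs, with the exact constants

For every `d ≥ 2`, on every class of graphs of maximum degree at most `d` which consists of
quasi-line graphs (the neighbourhood of every vertex is the union of two cliques) and contains
all line graphs of bipartite graphs of maximum degree at most `d`, the constants `μ(K_r)` are all
equal to `c_f` as soon as `r ≥ d + 3`, and the common value is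
`1 - 1/(⌊d/2⌋+1) - 1/(⌈d/2⌉+1)`.
-/

namespace Pool.Agent.Helper762_QL.QuasiLineGraphs

/-- maximum degree at most `d` -/
def MaxDeg (d : ℕ) {n : ℕ} (G : SimpleGraph (Fin n)) : Prop :=
  ∀ v, (G.neighborSet v).ncard ≤ d

/-- the neighbourhood of every vertex is the union of two cliques -/
def QuasiLine {n : ℕ} (G : SimpleGraph (Fin n)) : Prop :=
  ∀ v, ∃ A B : Set (Fin n), G.neighborSet v = A ∪ B ∧ G.IsClique A ∧ G.IsClique B

/-- `G` is the line graph of a simple bipartite graph: its vertex `u` is the edge from the left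
end `p u` to the right end `q u` -/
def BipLine {n : ℕ} (G : SimpleGraph (Fin n)) : Prop :=
  ∃ p q : Fin n → ℕ, (∀ u v, p u = p v → q u = q v → u = v) ∧
    ∀ u v, G.Adj u v ↔ u ≠ v ∧ (p u = p v ∨ q u = q v)

/-- the reals `μ` in the definition of `μ({K_r}, 𝒦)`, as in the frozen statement -/
def delSet (𝒦 : ∀ n : ℕ, SimpleGraph (Fin n) → Prop) (r : ℕ) : Set ℝ :=
  {μ : ℝ | ∀ ε : ℝ, 0 < ε → ∃ N : ℕ, ∀ n : ℕ, N ≤ n → ∀ G : SimpleGraph (Fin n), 𝒦 n G →
      ∃ S : Finset (Fin n), (S.card : ℝ) ≤ (μ + ε) * (n : ℝ) ∧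
        ¬ ∃ f : Fin r → Set (Fin n),
            (∀ i, Disjoint (f i) (S : Set (Fin n))) ∧
            (∀ i, (G.induce (f i)).Connected) ∧
            (∀ i j, i ≠ j → Disjoint (f i) (f j)) ∧
            (∀ i j, i ≠ j → ∃ u ∈ f i, ∃ v ∈ f j, G.Adj u v)}

/-- the reals `c` in the definition of `c_f(𝒦)`, as in the frozen statement -/
def fragSet (𝒦 : ∀ n : ℕ, SimpleGraph (Fin n) → Prop) : Set ℝ :=
  {c : ℝ | ∀ ε : ℝ, 0 < ε → ∃ C : ℕ, ∀ n : ℕ, ∀ G : SimpleGraph (Fin n), 𝒦 n G →
      ∃ S : Finset (Fin n), (S.card : ℝ) ≤ (c + ε) * (n : ℝ) ∧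
        ∀ T : Set (Fin n), Disjoint T (S : Set (Fin n)) →
          (G.induce T).Connected → T.ncard ≤ C}

open Pool.Agent.Helper762_QL in
open Classical in
theorem good {d n : ℕ} {G : SimpleGraph (Fin n)} (hdeg : MaxDeg d G) (hql : QuasiLine G) :
    ∃ φ, Good G d φ := by
  choose A B hAB hA hB using hql
  have hdeg' : ∀ v, ∀ N : Finset (Fin n), (∀ w ∈ N, G.Adj v w) → N.card ≤ d := by
    intro v N hN
    rw [← Set.ncard_coe_finset]
    refine (Set.ncard_le_ncard ?_ (Set.toFinite _)).trans (hdeg v)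
    intro w hw
    exact hN w (by exact_mod_cast hw)
  refine ⟨fun v => phi2 (A v), hdeg', ?_, ?_, ?_⟩
  · intro v a b c ha hb hc hab hac hbc
    have hmem : ∀ w, G.Adj v w → w ∈ A v ∨ w ∈ B v := by
      intro w hw
      have : w ∈ G.neighborSet v := hw
      rw [hAB v] at this
      exact this
    rcases hmem a ha with ha | ha <;> rcases hmem b hb with hb | hb <;>
      rcases hmem c hc with hc | hc
    · exact Or.inl (hA v ha hb hab)
    · exact Or.inl (hA v ha hb hab)
    · exact Or.inr (Or.inl (hA v ha hc hac))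
    · exact Or.inr (Or.inr (hB v hb hc hbc))
    · exact Or.inr (Or.inr (hA v hb hc hbc))
    · exact Or.inr (Or.inl (hB v ha hc hac))
    · exact Or.inl (hB v ha hb hab)
    · exact Or.inl (hB v ha hb hab)
  · intro v
    refine phi2_local G v (A v) (B v) ?_ ?_ ?_
    · intro w hw
      have : w ∈ G.neighborSet v := hw
      rw [hAB v] at this
      exact this
    · intro x hx y hy hxy
      exact hA v hx hy hxy
    · intro x hx y hy hxy
      exact hB v hx hy hxy
  · intro v
    refine phi2_bound (A v) _ (hdeg' v _ ?_)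
    intro w hw
    exact (Finset.mem_filter.1 hw).2

open Pool.Agent.Helper762_QL in
theorem sp_class {d : ℕ} {𝒦 : ∀ n : ℕ, SimpleGraph (Fin n) → Prop}
    (hlow : ∀ (n : ℕ) (G : SimpleGraph (Fin n)), MaxDeg d G → BipLine G → 𝒦 n G)
    {g n : ℕ} {K : ℝ} {G : SimpleGraph (Fin n)} (h : SpLine d g K n G) : 𝒦 n G := by
  classical
  obtain ⟨a, b, p, q, hinj, hline, -, -⟩ := h.ex
  refine hlow n G ?_ ⟨fun u => (p u : ℕ), fun u => (q u : ℕ), ?_, ?_⟩
  · intro v
    rw [Set.ncard_eq_toFinset_card' (G.neighborSet v)]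
    exact h.deg v _ fun w hw => by simpa using hw
  · intro u v h1 h2
    exact hinj u v (Fin.ext h1) (Fin.ext h2)
  · intro u v
    rw [hline.adj u v, Fin.ext_iff, Fin.ext_iff]

open Pool.Agent.Helper762_QL in
/-- **Exact stabilisation for quasi-line graphs.** -/
theorem result (d : ℕ) (hd : 2 ≤ d) (𝒦 : ∀ n : ℕ, SimpleGraph (Fin n) → Prop)
    (hup : ∀ (n : ℕ) (G : SimpleGraph (Fin n)), 𝒦 n G → MaxDeg d G ∧ QuasiLine G)
    (hlow : ∀ (n : ℕ) (G : SimpleGraph (Fin n)), MaxDeg d G → BipLine G → 𝒦 n G)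
    (r : ℕ) (hr : d + 3 ≤ r) :
    sInf (delSet 𝒦 r) = sInf (fragSet 𝒦) ∧
    sInf (fragSet 𝒦) =
      1 - (1 / (((d / 2 : ℕ) : ℝ) + 1) + 1 / ((((d + 1) / 2 : ℕ) : ℝ) + 1)) := by
  classical
  have hcompl : ∀ {n : ℕ} (Y : Finset (Fin n)), ((Yᶜ).card : ℝ) = n - Y.card := by
    intro n Y
    rw [Finset.card_compl, Fintype.card_fin, Nat.cast_sub]
    have := Finset.card_le_univ Y
    simpa using this
  have h1 : IsLeast (fragSet 𝒦) (1 - alpha d) := by
    constructor
    · intro ε hε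
      obtain ⟨C, hC⟩ := upper_frag d hd ε hε
      refine ⟨C, fun n G hG => ?_⟩
      obtain ⟨φ, hφ⟩ := good (hup n G hG).1 (hup n G hG).2
      obtain ⟨Y, hY, hT⟩ := hC (Fin n) inferInstance G φ hφ
      rw [Fintype.card_fin] at hY
      refine ⟨Yᶜ, ?_, ?_⟩
      · rw [hcompl]
        linarith
      · intro T hTY hconn
        refine hT T ?_ hconn
        intro x hx
        by_contra hxY
        exact Set.disjoint_left.1 hTY hx (by rw [Finset.coe_compl]; exact hxY)
    · intro c hc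
      refine lower_frag d c fun ε hε => ?_
      obtain ⟨C, hC⟩ := hc ε hε
      exact ⟨C, fun g n K G hG => hC n G (sp_class hlow hG)⟩
  have h2 : IsLeast (delSet 𝒦 r) (1 - alpha d) := by
    constructor
    · intro ε hε
      refine ⟨0, fun n _ G hG => ?_⟩
      obtain ⟨φ, hφ⟩ := good (hup n G hG).1 (hup n G hG).2
      obtain ⟨Y, hY, hM⟩ := hφ.upper_model hd hr
      rw [Fintype.card_fin] at hY
      refine ⟨Yᶜ, ?_, ?_⟩
      · rw [hcompl]
        have : (0 : ℝ) ≤ ε * n := mul_nonneg hε.le (Nat.cast_nonneg _)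
        linarith
      · rintro ⟨f, hf1, hf2, hf3, hf4⟩
        refine hM ⟨f, ?_, hf2, hf3, hf4⟩
        intro i x hx
        by_contra hxY
        exact Set.disjoint_left.1 (hf1 i) hx (by rw [Finset.coe_compl]; exact hxY)
    · intro c hc
      refine lower_model d r c fun ε hε => ?_
      obtain ⟨N, hN⟩ := hc ε hε
      exact ⟨N, fun g n K G hn hG => hN n hn G (sp_class hlow hG)⟩
  exact ⟨by rw [h1.csInf_eq, h2.csInf_eq], h1.csInf_eq⟩

end Pool.Agent.Helper762_QL.QuasiLineGraphs
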