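import Pool.Agent.Helper762_QL.Avg
import Pool.Agent.H468R2.Frag.Fragment
import Pool.Agent.H729R3.TreeSep

set_option autoImplicit false

/-!
# Tree decompositions and fragmentation of elimination sets
-/

namespace Pool.Agent.Helper762_QL

open Finset

variable {V : Type}

/-- tree decompositions of `G[Z]` in parent form, in which every clique has a bag -/
def TDs (G : SimpleGraph V) (t : ℕ) (Z : Finset V) : Prop :=
  ∃ (T : ℕ) (par : Fin (T + 1) → Fin (T + 1)) (bag : Fin (T + 1) → Finset V),
    (∀ i, 0 < i → par i < i) ∧ (∀ i, (bag i).card ≤ t + 1) ∧ (∀ i, bag i ⊆ Z) ∧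
    (∀ v ∈ Z, ∃! i, v ∈ bag i ∧ (i = 0 ∨ v ∉ bag (par i))) ∧
    (∀ K ⊆ Z, Clq G K → ∃ i, K ⊆ bag i)

theorem TDs.empty (G : SimpleGraph V) (t : ℕ) : TDs G t ∅ := by
  refine ⟨0, id, fun _ => ∅, ?_, by simp, by simp, by simp, ?_⟩
  · intro i hi
    exact absurd hi (by rw [Fin.fin_one_eq_zero i]; exact lt_irrefl _)
  · intro K hK _
    exact ⟨0, hK⟩

theorem TDs.insert [DecidableEq V] {G : SimpleGraph V} {t : ℕ} {Z : Finset V} (h : TDs G t Z)
    {v : V} (hv : v ∉ Z) {N : Finset V} (hN : ∀ w, w ∈ N ↔ w ∈ Z ∧ G.Adj v w) (hcl : Clq G N)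
    (hcard : N.card ≤ t) : TDs G t (insert v Z) := by
  classical
  obtain ⟨T, par, bag, h1, h2, h3, h4, h5⟩ := h
  obtain ⟨i0, hi0⟩ := h5 N (fun w hw => ((hN w).1 hw).1) hcl
  refine ⟨T + 1, Fin.snoc (α := fun _ => Fin (T + 1 + 1)) (fun i => (par i).castSucc) i0.castSucc,
    Fin.snoc (α := fun _ => Finset V) bag (Insert.insert v N), ?_, ?_, ?_, ?_, ?_⟩
  · intro i
    refine Fin.lastCases ?_ ?_ i
    · intro _
      rw [Fin.snoc_last]
      exact Fin.castSucc_lt_last _
    · intro j hj
      rw [Fin.snoc_castSucc]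
      refine Fin.castSucc_lt_castSucc_iff.2 (h1 j ?_)
      exact hj
  · intro i
    refine Fin.lastCases ?_ ?_ i
    · rw [Fin.snoc_last]
      exact (Finset.card_insert_le _ _).trans (by omega)
    · intro j
      rw [Fin.snoc_castSucc]
      exact h2 j
  · intro i
    refine Fin.lastCases ?_ ?_ i
    · rw [Fin.snoc_last]
      intro w hw
      rw [Finset.mem_insert] at hw ⊢
      rcases hw with h | h
      · exact Or.inl h
      · exact Or.inr ((hN w).1 h).1
    · intro j
      rw [Fin.snoc_castSucc]
      exact (h3 j).trans (Finset.subset_insert _ _)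
  · intro w hw
    rw [Finset.mem_insert] at hw
    rcases hw with rfl | hw
    · refine ⟨Fin.last _, ⟨?_, ?_⟩, ?_⟩
      · simp only [Fin.snoc_last]
        exact Finset.mem_insert_self _ _
      · right
        simp only [Fin.snoc_last, Fin.snoc_castSucc]
        exact fun h => hv (h3 _ h)
      · intro j
        refine Fin.lastCases ?_ ?_ j
        · intro _; rfl
        · rintro i ⟨hi, _⟩
          simp only [Fin.snoc_castSucc] at hi
          exact absurd (h3 _ hi) hv
    · obtain ⟨i, ⟨hi1, hi2⟩, hi3⟩ := h4 w hw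
      refine ⟨i.castSucc, ⟨?_, ?_⟩, ?_⟩
      · simp only [Fin.snoc_castSucc]
        exact hi1
      · simp only [Fin.snoc_castSucc]
        rcases hi2 with h | h
        · left; rw [h]; rfl
        · right; exact h
      · intro j
        refine Fin.lastCases ?_ ?_ j
        · rintro ⟨hj1, hj2⟩
          exfalso
          simp only [Fin.snoc_last, Fin.snoc_castSucc] at hj1 hj2
          rcases hj2 with h | h
          · exact absurd h (Fin.last_pos.ne')
          · apply h
            apply hi0
            rw [Finset.mem_insert] at hj1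
            rcases hj1 with rfl | h'
            · exact absurd hw hv
            · exact h'
        · rintro k ⟨hk1, hk2⟩
          simp only [Fin.snoc_castSucc] at hk1 hk2
          congr 1
          apply hi3
          refine ⟨hk1, ?_⟩
          rcases hk2 with h | h
          · left
            exact Fin.castSucc_injective _ (h.trans (Fin.castSucc_zero).symm)
          · exact Or.inr h
  · intro K hK hKc
    by_cases hvK : v ∈ K
    · refine ⟨Fin.last _, ?_⟩
      rw [Fin.snoc_last]
      intro w hw
      rw [Finset.mem_insert]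
      by_cases hwv : w = v
      · exact Or.inl hwv
      · right
        rw [hN]
        exact ⟨(Finset.mem_insert.1 (hK hw)).resolve_left hwv, hKc v hvK w hw (Ne.symm hwv)⟩
    · obtain ⟨i, hi⟩ := h5 K (fun w hw => (Finset.mem_insert.1 (hK hw)).resolve_left
        (by rintro rfl; exact hvK hw)) hKc
      exact ⟨i.castSucc, by rw [Fin.snoc_castSucc]; exact hi⟩

/-- elimination sets of graphs of maximum degree at most `t` -/
theorem Elim.tds [DecidableEq V] {G : SimpleGraph V} {t : ℕ}
    (hdeg : ∀ v, ∀ N : Finset V, (∀ w ∈ N, G.Adj v w) → N.card ≤ t) {X : Finset V}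
    (h : Elim G X) : TDs G t X := by
  classical
  induction h with
  | empty => exact TDs.empty G t
  | insert X v hv hX hc ih =>
    refine ih.insert hv (N := X.filter (fun w => G.Adj v w)) (fun w => by
      rw [Finset.mem_filter]) ?_ (hdeg v _ fun w hw => (Finset.mem_filter.1 hw).2)
    intro x hx y hy hxy
    rw [Finset.mem_filter] at hx hy
    exact hc x hx.1 y hy.1 hx.2 hy.2 hxy

/-- the graph with the edges inside `X` only -/
def inside (G : SimpleGraph V) (X : Finset V) : SimpleGraph V where
  Adj u v := u ∈ X ∧ v ∈ X ∧ G.Adj u v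
  symm := ⟨fun _ _ h => ⟨h.2.1, h.1, h.2.2.symm⟩⟩
  loopless := ⟨fun _ h => h.2.2.ne rfl⟩

theorem Elim.inside_self [DecidableEq V] {G : SimpleGraph V} {X Y : Finset V} (h : Elim G X) :
    Elim (inside G Y) X := by
  induction h with
  | empty => exact Elim.empty
  | insert X v hv hX hc ih =>
    refine Elim.insert _ _ hv ih ?_
    intro a ha b hb h1 h2 hab
    exact ⟨h1.2.1, h2.2.1, hc a ha b hb h1.2.2 h2.2.2 hab⟩

theorem Elim.inside_univ [Fintype V] [DecidableEq V] {G : SimpleGraph V} {X : Finset V}
    (h : Elim G X) : Elim (inside G X) (Finset.univ : Finset V) := by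
  have key : ∀ D : Finset V, Disjoint D X → Elim (inside G X) (D ∪ X) := by
    intro D
    induction D using Finset.induction_on with
    | empty => intro _; rw [Finset.empty_union]; exact h.inside_self
    | insert v D hv ih =>
      intro hD
      rw [Finset.disjoint_insert_left] at hD
      rw [Finset.insert_union]
      refine Elim.insert _ _ ?_ (ih hD.2) ?_
      · rw [Finset.mem_union, not_or]; exact ⟨hv, hD.1⟩
      · intro a _ b _ h1 _ _
        exact absurd h1.1 hD.1
  have h1 := key (Finset.univ \ X) Finset.sdiff_disjoint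
  rwa [Finset.sdiff_union_of_subset (Finset.subset_univ X)] at h1

/-- fragmentation of elimination sets -/
theorem Elim.fragment [Fintype V] [DecidableEq V] {G : SimpleGraph V} {t : ℕ}
    (hdeg : ∀ v, ∀ N : Finset V, (∀ w ∈ N, G.Adj v w) → N.card ≤ t) {X : Finset V}
    (h : Elim G X) (a : ℕ) (ha : 1 ≤ a) :
    ∃ S : Finset V, a * S.card ≤ (t + 1) * (3 * X.card) ∧
      ∀ T : Set V, T ⊆ (X : Set V) → Disjoint T (S : Set V) → (G.induce T).Connected →
        T.ncard ≤ a := by
  classical
  have hdeg' : ∀ v, ∀ N : Finset V, (∀ w ∈ N, (inside G X).Adj v w) → N.card ≤ t :=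
    fun v N hN => hdeg v N fun w hw => (hN w hw).2.2
  obtain ⟨T, par, bag, h1, h2, h3, h4, h5⟩ := h.inside_univ.tds hdeg'
  have htd : H729R3.HasTreeDec (inside G X).Adj t := by
    refine ⟨T, par, bag, h1, h2, fun v => h4 v (Finset.mem_univ _), ?_⟩
    intro u v huv
    obtain ⟨i, hi⟩ := h5 {u, v} (Finset.subset_univ _) (by
      intro x hx y hy hxy
      simp only [Finset.mem_insert, Finset.mem_singleton] at hx hy
      rcases hx with rfl | rfl <;> rcases hy with rfl | rfl
      · exact absurd rfl hxy
      · exact huv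
      · exact huv.symm
      · exact absurd rfl hxy)
    exact ⟨i, hi (by simp), hi (by simp)⟩
  obtain ⟨S, κ, hS, hκ, hc⟩ := H468R2.Frag.fragment (inside G X).Adj (t + 1) a ha X
    (fun A => H729R3.treeDec_separator (inside G X).Adj t htd (fun u v h => h.symm) X A)
  refine ⟨S, hS, ?_⟩
  intro C hCX hCS hconn
  rw [conn_iff] at hconn
  obtain ⟨⟨z, hz⟩, hr⟩ := hconn
  have hsub : C ⊆ ((X.filter fun v => v ∉ S ∧ κ v = κ z : Finset V) : Set V) := by
    intro y hy
    have hκy : κ y = κ z := by
      refine Rch.closed (hr z hz y hy) (p := fun y => κ y = κ z) rfl ?_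
      intro p hp q hq hpq hκp
      rw [← hκp]
      refine (hκ p q ?_ ?_ ?_).symm
      · exact fun hpS => Set.disjoint_left.1 hCS hp (by exact_mod_cast hpS)
      · exact fun hqS => Set.disjoint_left.1 hCS hq (by exact_mod_cast hqS)
      · exact ⟨by exact_mod_cast hCX hp, by exact_mod_cast hCX hq, hpq⟩
    simp only [Finset.coe_filter, Set.mem_setOf_eq]
    exact ⟨by exact_mod_cast hCX hy, fun hyS => Set.disjoint_left.1 hCS hy
      (by exact_mod_cast hyS), hκy⟩
  calc C.ncard ≤ ((X.filter fun v => v ∉ S ∧ κ v = κ z : Finset V) : Set V).ncard :=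
        Set.ncard_le_ncard hsub (Finset.finite_toSet _)
    _ = (X.filter fun v => v ∉ S ∧ κ v = κ z).card := Set.ncard_coe_finset _
    _ ≤ a := hc (κ z)

end Pool.Agent.Helper762_QL
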